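import Mathlib

set_option autoImplicit false

/-!
# Atoms of abelian Cayley graphs are subgroups (MP_257582_lc)
-/

namespace Pool.Agent.R546.EV

open Finset
open scoped Pointwise

section Atom

variable {A : Type} [AddCommGroup A] [Fintype A] [DecidableEq A]

/-- size of the boundary -/
def bd (S0 F : Finset A) : ℤ := ((F + S0).card : ℤ) - F.card

/-- admissible sets -/
def Adm (S0 F : Finset A) : Prop := F.Nonempty ∧ F + S0 ≠ univ

omit [Fintype A] in
theorem bd_submod (S0 F F' : Finset A) :
    bd S0 (F ∩ F') + (((F + S0) ∪ (F' + S0)).card : ℤ) - (F ∪ F').card ≤ bd S0 F + bd S0 F' := by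
  have h1 : ((F ∩ F') + S0).card ≤ ((F + S0) ∩ (F' + S0)).card :=
    card_le_card Finset.inter_add_subset
  have h2 := card_union_add_card_inter (F + S0) (F' + S0)
  have h3 := card_union_add_card_inter F F'
  unfold bd
  omega

theorem star_spec (S0 F : Finset A) (hs : ∀ a ∈ S0, -a ∈ S0) : univ \ (F + S0) + S0 ⊆ univ \ F := by
  intro y hy
  rw [Finset.mem_add] at hy
  obtain ⟨x, hx, s, hs', rfl⟩ := hy
  rw [mem_sdiff] at hx ⊢
  refine ⟨mem_univ _, fun h => hx.2 ?_⟩
  rw [Finset.mem_add]
  exact ⟨x + s, h, -s, hs s hs', by abel⟩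

omit [AddCommGroup A] in
theorem card_sdiff_univ (X : Finset A) : ((univ \ X).card : ℤ) = Fintype.card A - X.card := by
  rw [← Finset.compl_eq_univ_sdiff, Finset.card_compl]
  have := Finset.card_le_univ X
  omega

/-- **Atoms are subgroups.** -/
theorem atom (S0 : Finset A) (h0 : (0 : A) ∈ S0) (hs : ∀ a ∈ S0, -a ∈ S0) (F : Finset A)
    (hF : Adm S0 F) :
    ∃ (H : AddSubgroup A) (K : Finset A), (∀ x, x ∈ K ↔ x ∈ H) ∧ Adm S0 K ∧
      bd S0 K ≤ bd S0 F := by
  classical
  -- a minimiser of the boundary
  obtain ⟨F1, hF1, hmin1⟩ := Finset.exists_min_image (univ.filter fun F : Finset A => Adm S0 F)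
    (fun F => bd S0 F) ⟨F, by simpa using hF⟩
  simp only [mem_filter, mem_univ, true_and] at hF1 hmin1
  set κ := bd S0 F1 with hκ
  -- of smallest size
  obtain ⟨F2, hF2, hmin2⟩ := Finset.exists_min_image
    (univ.filter fun F : Finset A => Adm S0 F ∧ bd S0 F = κ)
    (fun F => F.card) ⟨F1, by
      rw [mem_filter]
      exact ⟨mem_univ _, hF1, hκ.symm⟩⟩
  simp only [mem_filter, mem_univ, true_and] at hF2 hmin2
  obtain ⟨hF2a, hF2b⟩ := hF2
  -- subset
  have hsub : ∀ X : Finset A, X ⊆ X + S0 := by
    intro X x hx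
    rw [Finset.mem_add]
    exact ⟨x, hx, 0, h0, add_zero x⟩
  have hκ0 : 0 ≤ κ := by
    rw [hκ]
    unfold bd
    have := card_le_card (hsub F1)
    omega
  -- the complement
  have hbig : (2 * F2.card : ℤ) + κ ≤ Fintype.card A := by
    have hstar : Adm S0 (univ \ (F2 + S0)) := by
      constructor
      · rw [Finset.sdiff_nonempty]
        intro h
        exact hF2a.2 (Finset.univ_subset_iff.1 h)
      · intro h
        obtain ⟨x, hx⟩ := hF2a.1
        have := star_spec S0 F2 hs (h ▸ mem_univ x)
        rw [mem_sdiff] at this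
        exact this.2 hx
    have h1 := card_le_card (star_spec S0 F2 hs)
    have h2 := card_sdiff_univ (F2 + S0)
    have h3 := card_sdiff_univ F2
    have h4 : bd S0 (univ \ (F2 + S0)) ≤ κ := by
      have h5 : bd S0 (univ \ (F2 + S0)) =
        ((univ \ (F2 + S0) + S0).card : ℤ) - (univ \ (F2 + S0)).card := rfl
      have h6 : bd S0 F2 = ((F2 + S0).card : ℤ) - F2.card := rfl
      omega
    have h5 := hmin1 _ hstar
    have h6 := hmin2 _ ⟨hstar, le_antisymm h4 h5⟩
    have h7 : bd S0 F2 = ((F2 + S0).card : ℤ) - F2.card := rfl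
    omega
  -- intersecting atoms coincide
  have hint : ∀ F' : Finset A, Adm S0 F' → bd S0 F' = κ → F'.card = F2.card →
      (F2 ∩ F').Nonempty → F2 = F' := by
    intro F' hF' hb hc hne
    have h1 := bd_submod S0 F2 F'
    have hpos : 0 < (F2 ∩ F').card := card_pos.2 hne
    have h3 := card_union_add_card_inter F2 F'
    have h4 : κ ≤ (((F2 + S0) ∪ (F' + S0)).card : ℤ) - (F2 ∪ F').card := by
      by_cases hu : (F2 + S0) ∪ (F' + S0) = univ
      · rw [hu, Finset.card_univ]
        omega
      · have h5 : Adm S0 (F2 ∪ F') := by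
          refine ⟨hF2a.1.mono subset_union_left, ?_⟩
          rw [Finset.union_add]
          exact hu
        have h6 := hmin1 _ h5
        unfold bd at h6
        rw [Finset.union_add] at h6
        exact h6
    have h5 : Adm S0 (F2 ∩ F') := by
      refine ⟨hne, fun h => hF2a.2 ?_⟩
      rw [← Finset.univ_subset_iff, ← h]
      exact Finset.add_subset_add_right inter_subset_left
    have h6 := hmin1 _ h5
    have h7 := hmin2 _ ⟨h5, by omega⟩
    have h8 : F2 ∩ F' = F2 := Finset.eq_of_subset_of_card_le inter_subset_left h7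
    have h9 : F2 ⊆ F' := Finset.inter_eq_left.1 h8
    exact Finset.eq_of_subset_of_card_le h9 hc.le
  -- translates
  have htr : ∀ a : A, Adm S0 (F2.map (Equiv.addRight a).toEmbedding) ∧
      bd S0 (F2.map (Equiv.addRight a).toEmbedding) = κ ∧
      (F2.map (Equiv.addRight a).toEmbedding).card = F2.card := by
    intro a
    have h1 : F2.map (Equiv.addRight a).toEmbedding + S0 =
        (F2 + S0).map (Equiv.addRight a).toEmbedding := by
      ext x
      simp only [Finset.mem_add, mem_map_equiv, Equiv.addRight_symm, Equiv.coe_addRight]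
      constructor
      · rintro ⟨y, hy, s, hs', rfl⟩
        exact ⟨y + -a, hy, s, hs', by abel⟩
      · rintro ⟨y, hy, s, hs', h⟩
        refine ⟨y + a, by simpa using hy, s, hs', ?_⟩
        have : x = y + s + a := by
          rw [h]
          abel
        rw [this]
        abel
    refine ⟨⟨hF2a.1.map, ?_⟩, ?_, card_map _⟩
    · rw [h1]
      intro h
      apply hF2a.2
      rw [← Finset.card_eq_iff_eq_univ] at h ⊢
      rwa [card_map] at h
    · rw [← hF2b]
      unfold bd
      rw [h1, card_map, card_map]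
  obtain ⟨x0, hx0⟩ := hF2a.1
  -- the subgroup
  set K : Finset A := F2.map (Equiv.addRight (-x0)).toEmbedding with hK
  have hK0 : (0 : A) ∈ K := by
    rw [hK, mem_map_equiv, Equiv.addRight_symm, Equiv.coe_addRight]
    simpa using hx0
  have hmemK : ∀ x, x ∈ K ↔ x + x0 ∈ F2 := by
    intro x
    rw [hK, mem_map_equiv, Equiv.addRight_symm, Equiv.coe_addRight, neg_neg]
  have hshift : ∀ f ∈ K, ∀ x, x ∈ K ↔ x + f ∈ K := by
    intro f hf x
    have h1 : F2 = F2.map (Equiv.addRight (-f)).toEmbedding := by
      refine hint _ (htr _).1 (htr _).2.1 (htr _).2.2 ⟨x0, ?_⟩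
      rw [mem_inter, mem_map_equiv, Equiv.addRight_symm, Equiv.coe_addRight, neg_neg]
      refine ⟨hx0, ?_⟩
      change x0 + f ∈ F2
      rw [add_comm]
      exact (hmemK f).1 hf
    rw [hmemK, hmemK]
    constructor
    · intro h
      rw [h1, mem_map_equiv, Equiv.addRight_symm, Equiv.coe_addRight, neg_neg] at h
      change x + x0 + f ∈ F2 at h
      rw [add_right_comm]
      exact h
    · intro h
      rw [h1, mem_map_equiv, Equiv.addRight_symm, Equiv.coe_addRight, neg_neg]
      change x + x0 + f ∈ F2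
      rw [add_right_comm]
      exact h
  refine ⟨{ carrier := K
            add_mem' := ?_
            zero_mem' := hK0
            neg_mem' := ?_ }, K, fun x => Iff.rfl, (htr _).1, ?_⟩
  · intro a b ha hb
    exact (hshift b hb a).1 ha
  · intro a ha
    have := (hshift a ha (-a)).2
    rw [neg_add_cancel] at this
    exact this hK0
  · rw [(htr _).2.1]
    exact hmin1 _ hF

end Atom

end Pool.Agent.R546.EV
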