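import Mathlib

set_option autoImplicit false

/-!
# Binomial estimates (MP_257582_lc)
-/

namespace Pool.Agent.R546.EV

open Finset

/-- partial sums of binomial coefficients -/
theorem choose_partial (s : ℕ) : ∀ N : ℕ, 2 * s + 2 ≤ N →
    2 * ∑ i ∈ range (s + 1), (N + 1).choose i ≤ (s + 2) * N.choose s := by
  induction s with
  | zero =>
    intro N _
    simp
  | succ s ih =>
    intro N hN
    have h1 := ih N (by omega)
    rw [sum_range_succ, Nat.choose_succ_succ]
    have h2 := Nat.choose_succ_right_eq N s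
    have h3 : (s + 4) * N.choose s ≤ (s + 1) * N.choose (s + 1) := by
      rw [mul_comm (s + 1), h2, mul_comm (N.choose s)]
      exact Nat.mul_le_mul_right _ (by omega)
    nlinarith

/-- columns -/
theorem choose_columns (a w : ℕ) (hw : w ≤ a) (hC : 1 ≤ a.choose w) : ∀ H X U : ℕ,
    (a.choose w) ^ (H - (w * H + X - U)) * (w * H + X).choose U ≤ (a * H + X).choose U := by
  intro H
  induction H with
  | zero =>
    intro X U
    simp
  | succ H ih =>
    intro X U
    rcases Nat.lt_or_ge (w * (H + 1) + X) U with hU | hU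
    · rw [Nat.choose_eq_zero_of_lt hU, mul_zero]
      exact Nat.zero_le _
    have e1 : w * (H + 1) + X = w + (w * H + X) := by ring
    have e2 : a * (H + 1) + X = a + (a * H + X) := by ring
    rw [e1, e2, Nat.add_choose_eq w, Nat.add_choose_eq a, Finset.mul_sum]
    refine Finset.sum_le_sum ?_
    rintro ⟨j, l⟩ hjl
    rw [Finset.HasAntidiagonal.mem_antidiagonal] at hjl
    simp only at hjl ⊢
    rcases Nat.lt_or_ge w j with hj | hj
    · rw [Nat.choose_eq_zero_of_lt hj, zero_mul, mul_zero]
      exact Nat.zero_le _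
    rcases Nat.lt_or_ge (w * H + X) l with hl | hl
    · rw [Nat.choose_eq_zero_of_lt hl, mul_zero, mul_zero]
      exact Nat.zero_le _
    have h1 := ih X l
    rcases Nat.lt_or_ge j w with hjw | hjw
    · have h2 : w.choose j ≤ a.choose j := Nat.choose_le_choose j hw
      have h3 : (a.choose w) ^ (H + 1 - (w + (w * H + X) - U)) ≤
          (a.choose w) ^ (H - (w * H + X - l)) := by
        apply Nat.pow_le_pow_right hC
        omega
      calc (a.choose w) ^ (H + 1 - (w + (w * H + X) - U)) *
            (w.choose j * (w * H + X).choose l)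
          ≤ (a.choose w) ^ (H - (w * H + X - l)) * (a.choose j * (w * H + X).choose l) :=
            Nat.mul_le_mul h3 (Nat.mul_le_mul_right _ h2)
        _ = a.choose j * ((a.choose w) ^ (H - (w * H + X - l)) * (w * H + X).choose l) := by ring
        _ ≤ a.choose j * (a * H + X).choose l := Nat.mul_le_mul_left _ h1
    · have hjw' : j = w := le_antisymm hj hjw
      subst hjw'
      have h3 : (a.choose j) ^ (H + 1 - (j + (j * H + X) - U)) ≤
          (a.choose j) ^ (H - (j * H + X - l) + 1) := by
        apply Nat.pow_le_pow_right hC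
        omega
      calc (a.choose j) ^ (H + 1 - (j + (j * H + X) - U)) *
            (j.choose j * (j * H + X).choose l)
          ≤ (a.choose j) ^ (H - (j * H + X - l) + 1) * (1 * (j * H + X).choose l) := by
            rw [Nat.choose_self]
            exact Nat.mul_le_mul_right _ h3
        _ = a.choose j * ((a.choose j) ^ (H - (j * H + X - l)) * (j * H + X).choose l) := by ring
        _ ≤ a.choose j * (a * H + X).choose l := Nat.mul_le_mul_left _ h1

theorem two_le_choose {a w : ℕ} (h1 : 1 ≤ w) (h2 : w < a) : 2 ≤ a.choose w := by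
  obtain ⟨w', rfl⟩ : ∃ w', w = w' + 1 := ⟨w - 1, by omega⟩
  obtain ⟨a', rfl⟩ : ∃ a', a = a' + 1 := ⟨a - 1, by omega⟩
  rw [Nat.choose_succ_succ]
  have h3 : 0 < a'.choose w' := Nat.choose_pos (by omega)
  have h4 : 0 < a'.choose (w' + 1) := Nat.choose_pos (by omega)
  have h5 : a'.choose w'.succ = a'.choose (w' + 1) := rfl
  omega

/-- number of bad sets for one subgroup -/
theorem bad_one {a w x u : ℕ} (h1 : 1 ≤ w) (h2 : w < a) (h3 : w * (2 * x + 3) ≤ u)
    (h4 : u ≤ w * (2 * x + 3) + x) :
    8 * 2 ^ x * (a.choose w * ∑ i ∈ Ico (u + 1) (w * (2 * x + 3) + x + 2),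
      (w * (2 * x + 3) + x + 1).choose i) ≤ (x + 2) * (a * (2 * x + 3) + x).choose u := by
  set N := w * (2 * x + 3) + x with hN
  obtain ⟨s, hs⟩ : ∃ s, N = u + s := ⟨N - u, by omega⟩
  have hsx : s ≤ x := by omega
  have hsum : ∑ i ∈ Ico (u + 1) (N + 2), (N + 1).choose i =
      ∑ i ∈ range (s + 1), (N + 1).choose i := by
    rw [Finset.sum_Ico_eq_sum_range, ← Finset.sum_range_reflect]
    have e : N + 2 - (u + 1) = s + 1 := by omega
    rw [e]
    refine Finset.sum_congr rfl fun i hi => ?_
    rw [mem_range] at hi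
    refine Nat.choose_symm_of_eq_add ?_
    omega
  have hu : 2 * x + 3 ≤ u := by nlinarith
  have h5 := choose_partial s N (by omega)
  have h6 : N.choose s = N.choose u := by
    refine Nat.choose_symm_of_eq_add ?_
    omega
  have h7 := two_le_choose h1 h2
  have h8 := choose_columns a w h2.le (by omega) (2 * x + 3) x u
  rw [← hN] at h8
  have h9 : 2 ^ (x + 2) * a.choose w ≤ (a.choose w) ^ (2 * x + 3 - (N - u)) := by
    calc 2 ^ (x + 2) * a.choose w ≤ (a.choose w) ^ (x + 2) * a.choose w :=
          Nat.mul_le_mul_right _ (Nat.pow_le_pow_left h7 _)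
      _ = (a.choose w) ^ (x + 3) := by ring
      _ ≤ (a.choose w) ^ (2 * x + 3 - (N - u)) := by
          apply Nat.pow_le_pow_right (by omega)
          omega
  have h10 : 2 ^ (x + 2) * a.choose w * N.choose u ≤ (a * (2 * x + 3) + x).choose u :=
    (Nat.mul_le_mul_right _ h9).trans h8
  rw [hsum]
  calc 8 * 2 ^ x * (a.choose w * ∑ i ∈ range (s + 1), (N + 1).choose i)
      = 4 * 2 ^ x * a.choose w * (2 * ∑ i ∈ range (s + 1), (N + 1).choose i) := by ring
    _ ≤ 4 * 2 ^ x * a.choose w * ((s + 2) * N.choose s) := Nat.mul_le_mul_left _ h5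
    _ = (s + 2) * (2 ^ (x + 2) * a.choose w * N.choose u) := by
        rw [h6]
        ring
    _ ≤ (x + 2) * (a * (2 * x + 3) + x).choose u := Nat.mul_le_mul (by omega) h10

/-- small arguments -/
theorem choose_div (e : ℕ) (he : 1 ≤ e) (a b : ℕ) (h : e * a ≤ b) : ∀ u : ℕ,
    e ^ u * a.choose u ≤ b.choose u := by
  intro u
  induction u with
  | zero => simp
  | succ u ih =>
    have h1 := Nat.choose_succ_right_eq a u
    have h2 := Nat.choose_succ_right_eq b u
    have h3 : e * (a - u) ≤ b - u := by
      rcases Nat.lt_or_ge a u with h | h'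
      · rw [Nat.sub_eq_zero_of_le h.le, mul_zero]
        exact Nat.zero_le _
      · obtain ⟨c, rfl⟩ := Nat.exists_eq_add_of_le h'
        rw [Nat.add_sub_cancel_left]
        have : u ≤ e * u := Nat.le_mul_of_pos_left u he
        rw [mul_add] at h
        omega
    have h4 : (e ^ (u + 1) * a.choose (u + 1)) * (u + 1) ≤ b.choose (u + 1) * (u + 1) := by
      calc (e ^ (u + 1) * a.choose (u + 1)) * (u + 1)
          = (e ^ u * a.choose u) * (e * (a - u)) := by
            rw [mul_assoc, h1]
            ring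
        _ ≤ b.choose u * (b - u) := Nat.mul_le_mul ih h3
        _ = b.choose (u + 1) * (u + 1) := h2.symm
    exact Nat.le_of_mul_le_mul_right h4 (by omega)

/-- truncated alternating sums -/
theorem alt_sum (u : ℕ) (hu : 1 ≤ u) (M : ℕ) :
    ∑ k ∈ range (M + 1), (M.choose k : ℤ) * (if u < k then (-1) ^ k else 0) =
      (-1) ^ (u + 1) * ((M - 1).choose u : ℤ) := by
  cases M with
  | zero =>
    have : (0 - 1).choose u = 0 := Nat.choose_eq_zero_of_lt (by omega)
    rw [this]
    simp
  | succ M =>
    rw [Nat.add_sub_cancel]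
    rcases Nat.lt_or_ge M u with h | h
    · rw [Nat.choose_eq_zero_of_lt h, Nat.cast_zero, mul_zero]
      refine Finset.sum_eq_zero fun k hk => ?_
      rw [mem_range] at hk
      rw [if_neg (by omega), mul_zero]
    · have h1 := Int.alternating_sum_range_choose_of_ne (n := M + 1) (by omega)
      have h2 := Int.alternating_sum_range_choose_eq_choose (n := M) (m := u)
      have h3 : ∑ k ∈ range (M + 1 + 1), ((M + 1).choose k : ℤ) * (if u < k then (-1) ^ k else 0) =
          ∑ k ∈ range (M + 1 + 1), ((-1) ^ k * (M + 1).choose k : ℤ) -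
          ∑ k ∈ range (u + 1), ((-1) ^ k * (M + 1).choose k : ℤ) := by
        have h4 : range (u + 1) = (range (M + 1 + 1)).filter (fun k => ¬ u < k) := by
          ext k
          simp only [mem_range, mem_filter]
          omega
        rw [h4, Finset.sum_filter, ← Finset.sum_sub_distrib]
        refine Finset.sum_congr rfl fun k _ => ?_
        by_cases hk : u < k
        · rw [if_pos hk, if_neg (by simpa using hk)]
          ring
        · rw [if_neg hk, if_pos hk]
          ring
      rw [h3, h1, h2]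
      ring

/-- the weights `(x + 2) / 2 ^ x` -/
theorem weights (X : ℕ) : ∑ x ∈ range X, ((x : ℚ) + 2) / 2 ^ x = 6 - (2 * X + 6) / 2 ^ X := by
  induction X with
  | zero => norm_num
  | succ X ih =>
    rw [sum_range_succ, ih]
    have : (2 : ℚ) ^ X ≠ 0 := by positivity
    push_cast
    rw [pow_succ]
    field_simp
    ring

theorem weights_le (X : ℕ) : ∑ x ∈ range X, ((x : ℚ) + 2) / 2 ^ x ≤ 6 := by
  rw [weights]
  have : (0 : ℚ) ≤ (2 * X + 6) / 2 ^ X := by positivity
  linarith

/-- the odd squares -/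
theorem odd_squares (X : ℕ) :
    ∑ x ∈ range X, (1 : ℚ) / (2 * (x : ℚ) + 3) ^ 2 ≤ (1 / 4 : ℚ) - 1 / (4 * ((X : ℚ) + 1)) := by
  induction X with
  | zero => norm_num
  | succ X ih =>
    rw [sum_range_succ]
    have h1 : (1 : ℚ) / (2 * X + 3) ^ 2 ≤ 1 / (4 * (X + 1)) - 1 / (4 * (X + 2)) := by
      have e : (1 : ℚ) / (4 * (X + 1)) - 1 / (4 * (X + 2)) = 1 / (4 * (X + 1) * (X + 2)) := by
        field_simp
        ring
      rw [e]
      apply one_div_le_one_div_of_le (by positivity)
      nlinarith
    push_cast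
    have e2 : ((X : ℚ) + 1 + 1) = X + 2 := by ring
    rw [e2]
    linarith

theorem odd_squares_le (X : ℕ) : ∑ x ∈ range X, (1 : ℚ) / (2 * (x : ℚ) + 3) ^ 2 ≤ 1 / 4 := by
  refine (odd_squares X).trans ?_
  have : (0 : ℚ) ≤ 1 / (4 * ((X : ℚ) + 1)) := by positivity
  linarith

end Pool.Agent.R546.EV
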