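import Mathlib
import Pool.Agent.W332.Kd.Reg3
import Pool.Agent.R546.EV.Binom

set_option autoImplicit false

/-!
# Pairs of opposite elements in symmetric sets (MP_257582_lc)
-/

namespace Pool.Agent.R546.EV

open Finset
open Pool.Agent.W332.Kd

section Gen

variable {A : Type} [AddCommGroup A] [Fintype A] [DecidableEq A]

theorem neg_ne_self (hA : Odd (Fintype.card A)) {a : A} (ha : a ≠ 0) : ¬ -a = a := by
  intro h
  have h2 : (2 : ℕ) • a = 0 := by
    rw [two_nsmul]
    nth_rewrite 1 [← h]
    exact neg_add_cancel a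
  have h3 : addOrderOf a ∣ 2 := addOrderOf_dvd_of_nsmul_eq_zero h2
  have h4 : addOrderOf a ∣ Fintype.card A := addOrderOf_dvd_card
  have h5 : Nat.gcd 2 (Fintype.card A) = 1 := (Nat.coprime_two_left).2 hA
  have h6 := Nat.dvd_gcd h3 h4
  rw [h5, Nat.dvd_one] at h6
  exact ha (AddMonoid.addOrderOf_eq_one_iff.1 h6)

/-- the union of the pairs in `I` -/
noncomputable def un (I : Finset (Rp A)) : Finset A := I.biUnion fun j => pr j.1

theorem card_un (hA : Odd (Fintype.card A)) (I : Finset (Rp A)) : (un I).card = 2 * I.card := by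
  unfold un
  rw [Finset.card_biUnion (fun i _ j _ hij => part_pr.disj i j hij)]
  rw [Finset.sum_congr rfl fun (j : Rp A) _ => card_pr j.1]
  rw [Finset.sum_congr rfl fun (j : Rp A) _ => if_neg (neg_ne_self hA ((mem_Rp _).1 j.2).1),
    Finset.sum_const, smul_eq_mul, mul_comm]

theorem un_sy (I : Finset (Rp A)) : Sy (un I) := part_pr.sy_biUnion I

/-- the pairs in a set -/
noncomputable def prs (X : Finset A) : Finset (Rp A) := univ.filter fun j => j.1 ∈ X

theorem mem_prs (X : Finset A) (j : Rp A) : j ∈ prs X ↔ j.1 ∈ X := by simp [prs]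

theorem insert_un_prs (X : Finset A) (h0 : (0 : A) ∈ X) (hs : ∀ a ∈ X, -a ∈ X) :
    insert 0 (un (prs X)) = X := by
  ext x
  rw [mem_insert, un, mem_biUnion]
  constructor
  · rintro (rfl | ⟨j, hj, hx⟩)
    · exact h0
    · rw [mem_prs] at hj
      rw [mem_pr] at hx
      rcases hx with rfl | rfl
      · exact hj
      · exact hs _ hj
  · intro hx
    by_cases h : x = 0
    · exact Or.inl h
    · obtain ⟨j, hj⟩ := cover_pr x h
      refine Or.inr ⟨j, ?_, hj⟩
      rw [mem_prs]
      rw [mem_pr] at hj
      rcases hj with h1 | h1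
      · rwa [← h1]
      · have : j.1 = -x := by rw [h1, neg_neg]
        rw [this]
        exact hs _ hx

theorem card_prs (hA : Odd (Fintype.card A)) (X : Finset A) (h0 : (0 : A) ∈ X)
    (hs : ∀ a ∈ X, -a ∈ X) : 2 * (prs X).card + 1 = X.card := by
  rw [← card_un hA]
  conv_rhs => rw [← insert_un_prs X h0 hs]
  rw [card_insert_of_notMem (un_sy _).zero]

theorem card_Rp (hA : Odd (Fintype.card A)) :
    2 * (univ : Finset (Rp A)).card + 1 = Fintype.card A := by
  have h1 := card_prs hA (univ : Finset A) (mem_univ _) (fun _ _ => mem_univ _)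
  rw [Finset.card_univ (α := A)] at h1
  rw [← h1]
  congr 3
  ext j
  simp [mem_prs]

end Gen

theorem card_fiber {A B : Type} [AddCommGroup A] [Fintype A] [DecidableEq A] [AddCommGroup B]
    [Fintype B] [DecidableEq B] (f : A →+ B) (hf : Function.Surjective f) (W : Finset B) (h : ℕ)
    (hh : h * Fintype.card B = Fintype.card A) :
    (univ.filter fun x => f x ∈ W).card = h * W.card := by
  have key : ∀ W : Finset B, (univ.filter fun x => f x ∈ W).card =
      (univ.filter fun x => f x = 0).card * W.card := by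
    intro W
    have h1 := Finset.card_eq_sum_card_fiberwise (f := fun x => f x) (t := W)
      (s := univ.filter fun x => f x ∈ W) (fun x hx => by simpa using hx)
    rw [h1]
    have h2 : ∀ b ∈ W, ((univ.filter fun x => f x ∈ W).filter fun x => f x = b).card =
        (univ.filter fun x => f x = 0).card := by
      intro b hb
      have h3 : (univ.filter fun x => f x ∈ W).filter (fun x => f x = b) =
          univ.filter fun x => f x = b := by
        ext x
        simp only [mem_filter, mem_univ, true_and]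
        constructor
        · rintro ⟨_, h⟩
          exact h
        · intro h
          exact ⟨by rw [h]; exact hb, h⟩
      rw [h3]
      exact AddMonoidHom.card_fiber_eq_of_mem_range f (hf b) (hf 0)
    rw [Finset.sum_congr rfl h2, Finset.sum_const, smul_eq_mul, mul_comm]
  have h1 := key univ
  have h2 : (univ.filter fun x : A => f x ∈ (univ : Finset B)) = univ := by
    ext x
    simp
  rw [h2, Finset.card_univ, Finset.card_univ, ← hh] at h1
  have h3 : 0 < Fintype.card B := Fintype.card_pos_iff.2 ⟨0⟩
  rw [key W, Nat.eq_of_mul_eq_mul_right h3 h1]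

/-- reduction -/
def red {n d : ℕ} (h : d ∣ n) : ZMod n →+ ZMod d := (ZMod.castHom h (ZMod d)).toAddMonoidHom

theorem red_surj {n d : ℕ} (h : d ∣ n) : Function.Surjective (red h) :=
  ZMod.castHom_surjective h

theorem red_eq_zero {n d : ℕ} [NeZero n] (h : d ∣ n) (x : ZMod n) : red h x = 0 ↔ d ∣ x.val := by
  change ZMod.castHom h (ZMod d) x = 0 ↔ _
  rw [ZMod.castHom_apply, ← ZMod.natCast_val, ZMod.natCast_eq_zero_iff]

theorem odd_of_dvd {n d : ℕ} (hn : Odd n) (h : d ∣ n) : Odd d := Odd.of_dvd_nat hn h

theorem card_zmod_odd {n : ℕ} [NeZero n] (hn : Odd n) : Odd (Fintype.card (ZMod n)) := by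
  rwa [ZMod.card]

/-- pairs in the preimage of a symmetric set -/
theorem card_prs_red {n d h : ℕ} [NeZero n] [NeZero d] (hn : Odd n) (hd : d ∣ n)
    (hh : h * d = n) (W : Finset (ZMod d)) (h0 : (0 : ZMod d) ∈ W) (hs : ∀ a ∈ W, -a ∈ W) :
    2 * (prs (univ.filter fun x : ZMod n => red hd x ∈ W)).card + 1 = h * W.card := by
  rw [card_prs (card_zmod_odd hn)]
  · exact card_fiber (red hd) (red_surj hd) W h (by rw [ZMod.card, ZMod.card, hh])
  · simpa using h0
  · intro a ha
    rw [mem_filter] at ha ⊢
    refine ⟨mem_univ _, ?_⟩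
    rw [map_neg]
    exact hs _ ha.2

/-- pairs of multiples of `d` -/
noncomputable def JJ (n d : ℕ) [NeZero n] : Finset (Rp (ZMod n)) := univ.filter fun j => d ∣ j.1.val

theorem card_JJ {n d h : ℕ} [NeZero n] (hn : Odd n) (hd : d ∣ n) (hh : h * d = n) :
    2 * (JJ n d).card + 1 = h := by
  have : NeZero d := ⟨fun h' => NeZero.ne n (by rw [← hh, h', mul_zero])⟩
  have h1 := card_prs_red hn hd hh {0} (by simp) (by simp)
  rw [card_singleton, mul_one] at h1
  rw [← h1]
  congr 3
  ext j
  rw [mem_prs, JJ, mem_filter, mem_filter, mem_singleton, red_eq_zero]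
  simp

/-- number of subsets of size more than `u` -/
theorem card_large {α : Type} [DecidableEq α] (J : Finset α) (u : ℕ) :
    (J.powerset.filter fun I => u + 1 ≤ I.card).card =
      ∑ i ∈ Ico (u + 1) (J.card + 1), J.card.choose i := by
  rw [Finset.card_filter]
  have h1 := Finset.sum_powerset_apply_card (fun k => if u + 1 ≤ k then 1 else 0) (x := J)
  rw [h1]
  have h2 : Ico (u + 1) (J.card + 1) = (range (J.card + 1)).filter fun k => u + 1 ≤ k := by
    ext k
    simp only [mem_Ico, mem_filter, mem_range]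
    omega
  rw [h2, Finset.sum_filter]
  refine Finset.sum_congr rfl fun k _ => ?_
  split_ifs <;> simp


end Pool.Agent.R546.EV
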