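import Mathlib
import Pool.Agent.W332.Kd.Thr
import Pool.Agent.R546.EV.Pairs

set_option autoImplicit false

/-!
# Counting generating sets and bad sets of pairs (MP_257582_lc)
-/

namespace Pool.Agent.R546.EV

open Finset
open Pool.Agent.W332.Kd

/-- the bad sets for the subgroup of order `2 x + 3` -/
def IsBad (n u x : ℕ) [NeZero n] (I : Finset (Rp (ZMod n))) : Prop :=
  u + 1 ≤ I.card ∧ ∃ (d w : ℕ) (hd : d ∣ n) (W : Finset (ZMod d)), (2 * x + 3) * d = n ∧
    (0 : ZMod d) ∈ W ∧ (∀ a ∈ W, -a ∈ W) ∧ W.card = 2 * w + 1 ∧ 1 ≤ w ∧ 2 * w + 1 < d ∧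
    w * (2 * x + 3) ≤ u ∧ ∀ j ∈ I, red hd j.1 ∈ W

theorem bad_size {n u x d w : ℕ} [NeZero n] [NeZero d] (hn : Odd n) {I : Finset (Rp (ZMod n))}
    (hd : d ∣ n) (hhd : (2 * x + 3) * d = n) (W : Finset (ZMod d)) (h0 : (0 : ZMod d) ∈ W)
    (hs : ∀ a ∈ W, -a ∈ W) (hc : W.card = 2 * w + 1) (hu : u + 1 ≤ I.card)
    (hI : ∀ j ∈ I, red hd j.1 ∈ W) :
    (prs (univ.filter fun y : ZMod n => red hd y ∈ W)).card = w * (2 * x + 3) + x + 1 ∧
      u ≤ w * (2 * x + 3) + x := by
  have h1 := card_prs_red hn hd hhd W h0 hs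
  rw [hc] at h1
  have h2 : (2 * x + 3) * (2 * w + 1) = 2 * (w * (2 * x + 3) + x + 1) + 1 := by ring
  rw [h2] at h1
  have h3 : (prs (univ.filter fun y : ZMod n => red hd y ∈ W)).card =
      w * (2 * x + 3) + x + 1 := by omega
  refine ⟨h3, ?_⟩
  have h4 : I ⊆ prs (univ.filter fun y : ZMod n => red hd y ∈ W) := by
    intro j hj
    rw [mem_prs, mem_filter]
    exact ⟨mem_univ _, hI j hj⟩
  have h5 := card_le_card h4
  omega

open Classical in
theorem bad_card {n u x : ℕ} [NeZero n] (hn : Odd n) :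
    8 * 2 ^ x * (univ.filter fun I => IsBad n u x I).card ≤ (x + 2) * ((n - 3) / 2).choose u := by
  by_cases hex : ∃ I, IsBad n u x I
  · obtain ⟨I0, h0, d, w, hd, W0, hhd, hW0, hWs, hWc, h1w, hwd, hwu, hI0⟩ := hex
    have : NeZero d := ⟨fun h' => NeZero.ne n (by rw [← hhd, h', mul_zero])⟩
    obtain ⟨a, ha⟩ := odd_of_dvd hn hd
    obtain ⟨-, hux⟩ := bad_size hn hd hhd W0 hW0 hWs hWc h0 hI0
    have hRp : (univ : Finset (Rp (ZMod d))).card = a := by
      have := card_Rp (card_zmod_odd (odd_of_dvd hn hd))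
      rw [ZMod.card] at this
      omega
    have hsub : (univ.filter fun I => IsBad n u x I) ⊆
        (powersetCard w (univ : Finset (Rp (ZMod d)))).biUnion fun V =>
          (prs (univ.filter fun y : ZMod n => red hd y ∈ insert 0 (un V))).powerset.filter
            fun I => u + 1 ≤ I.card := by
      intro I hI
      rw [mem_filter] at hI
      obtain ⟨-, hu', d', w', hd', W, hhd', hW, hWs', hWc', h1w', hwd', hwu', hI'⟩ := hI
      have hdd : d' = d := by
        have : (2 * x + 3) * d' = (2 * x + 3) * d := by rw [hhd', hhd]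
        exact Nat.eq_of_mul_eq_mul_left (by omega) this
      subst hdd
      obtain ⟨hsz, hux'⟩ := bad_size hn hd hhd W hW hWs' hWc' hu' hI'
      have hww : w' = w := by
        rcases lt_trichotomy w' w with h | h | h
        · exfalso
          have : (w' + 1) * (2 * x + 3) ≤ w * (2 * x + 3) := Nat.mul_le_mul_right _ h
          rw [add_mul, one_mul] at this
          omega
        · exact h
        · exfalso
          have : (w + 1) * (2 * x + 3) ≤ w' * (2 * x + 3) := Nat.mul_le_mul_right _ h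
          rw [add_mul, one_mul] at this
          omega
      subst hww
      rw [mem_biUnion]
      have hW1 := insert_un_prs W hW hWs'
      refine ⟨prs W, ?_, ?_⟩
      · rw [mem_powersetCard]
        refine ⟨subset_univ _, ?_⟩
        have := card_prs (card_zmod_odd (odd_of_dvd hn hd)) W hW hWs'
        omega
      · rw [mem_filter, mem_powerset, hW1]
        refine ⟨fun j hj => ?_, hu'⟩
        rw [mem_prs, mem_filter]
        exact ⟨mem_univ _, hI' j hj⟩
    have hle := (card_le_card hsub).trans (card_biUnion_le_card_mul _ _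
      (∑ i ∈ Ico (u + 1) (w * (2 * x + 3) + x + 2), (w * (2 * x + 3) + x + 1).choose i) (by
        intro V hV
        rw [mem_powersetCard] at hV
        rw [card_large]
        have h1 := card_prs_red hn hd hhd (insert 0 (un V)) (mem_insert_self _ _) (by
          intro b hb
          rw [mem_insert] at hb ⊢
          rcases hb with rfl | hb
          · exact Or.inl neg_zero
          · exact Or.inr ((un_sy V).neg _ hb))
        rw [card_insert_of_notMem (un_sy V).zero, card_un (card_zmod_odd (odd_of_dvd hn hd)),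
          hV.2] at h1
        have h2 : (2 * x + 3) * (2 * w + 1) = 2 * (w * (2 * x + 3) + x + 1) + 1 := by ring
        rw [h2] at h1
        have h3 : (prs (univ.filter fun y : ZMod n => red hd y ∈ insert 0 (un V))).card =
            w * (2 * x + 3) + x + 1 := by omega
        rw [h3]))
    rw [card_powersetCard, hRp] at hle
    have h1 := bad_one (a := a) (w := w) (x := x) (u := u) h1w (by omega) hwu hux
    have h2 : (n - 3) / 2 = a * (2 * x + 3) + x := by
      rw [← hhd, ha]
      have : (2 * x + 3) * (2 * a + 1) = 2 * (a * (2 * x + 3) + x) + 3 := by ring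
      omega
    rw [h2]
    exact (Nat.mul_le_mul_left _ hle).trans h1
  · have h1 : (univ.filter fun I => IsBad n u x I) = ∅ := by
      rw [Finset.filter_eq_empty_iff]
      intro I _ h
      exact hex ⟨I, h⟩
    rw [h1, card_empty, mul_zero]
    exact Nat.zero_le _

/-! ### generating sets -/

/-- no proper divisor of `n` divides all elements of `I` -/
def Gn (n : ℕ) [NeZero n] (I : Finset (Rp (ZMod n))) : Prop :=
  ∀ d, d ∣ n → (∀ j ∈ I, d ∣ j.1.val) → d = 1

open Classical in
theorem gn_moebius {n : ℕ} [NeZero n] (I : Finset (Rp (ZMod n))) :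
    (if Gn n I then (1 : ℤ) else 0) =
      ∑ d ∈ n.divisors, ArithmeticFunction.moebius d * (if I ⊆ JJ n d then 1 else 0) := by
  set g := Nat.gcd n (I.gcd fun j => j.1.val) with hg
  have hn0 : n ≠ 0 := NeZero.ne n
  have hg0 : g ≠ 0 := fun h => hn0 (Nat.eq_zero_of_gcd_eq_zero_left h)
  have hJ : ∀ d, I ⊆ JJ n d ↔ ∀ j ∈ I, d ∣ j.1.val := by
    intro d
    constructor
    · intro h j hj
      have := h hj
      rw [JJ, mem_filter] at this
      exact this.2
    · intro h j hj
      rw [JJ, mem_filter]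
      exact ⟨mem_univ _, h j hj⟩
  have h1 : ∑ d ∈ n.divisors, ArithmeticFunction.moebius d * (if I ⊆ JJ n d then (1 : ℤ) else 0) =
      ∑ d ∈ g.divisors, ArithmeticFunction.moebius d := by
    have h2 : g.divisors = n.divisors.filter fun d => I ⊆ JJ n d := by
      ext d
      rw [mem_filter, Nat.mem_divisors, Nat.mem_divisors, hJ, hg, Nat.dvd_gcd_iff,
        Finset.dvd_gcd_iff]
      constructor
      · rintro ⟨⟨h3, h4⟩, -⟩
        exact ⟨⟨h3, hn0⟩, h4⟩
      · rintro ⟨⟨h3, -⟩, h4⟩
        exact ⟨⟨h3, h4⟩, hg0⟩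
    rw [h2, Finset.sum_filter]
    refine Finset.sum_congr rfl fun d _ => ?_
    split_ifs <;> simp
  have h2 : ∑ d ∈ g.divisors, ArithmeticFunction.moebius d = if g = 1 then 1 else 0 := by
    rw [← ArithmeticFunction.coe_mul_zeta_apply, ArithmeticFunction.moebius_mul_coe_zeta,
      ArithmeticFunction.one_apply]
  rw [h1, h2]
  have h3 : Gn n I ↔ g = 1 := by
    constructor
    · intro h
      refine h g (Nat.gcd_dvd_left _ _) fun j hj => ?_
      exact (Nat.gcd_dvd_right _ _).trans (Finset.gcd_dvd hj)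
    · intro h d hd hI
      have : d ∣ g := Nat.dvd_gcd hd (Finset.dvd_gcd fun j hj => hI j hj)
      rw [h, Nat.dvd_one] at this
      exact this
  by_cases h : Gn n I
  · rw [if_pos h, if_pos (h3.1 h)]
  · rw [if_neg h, if_neg (fun h' => h (h3.2 h'))]

open Classical in
theorem gn_sum {n : ℕ} [NeZero n] (f : ℕ → ℤ) :
    ∑ I : Finset (Rp (ZMod n)), (if Gn n I then f I.card else 0) =
      ∑ d ∈ n.divisors, ArithmeticFunction.moebius d *
        ∑ k ∈ range ((JJ n d).card + 1), ((JJ n d).card.choose k : ℤ) * f k := by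
  have h1 : ∀ I : Finset (Rp (ZMod n)), (if Gn n I then f I.card else 0) =
      ∑ d ∈ n.divisors, ArithmeticFunction.moebius d * (if I ⊆ JJ n d then f I.card else 0) := by
    intro I
    have h2 : (if Gn n I then f I.card else 0) = (if Gn n I then (1 : ℤ) else 0) * f I.card := by
      split_ifs <;> simp
    rw [h2, gn_moebius, Finset.sum_mul]
    refine Finset.sum_congr rfl fun d _ => ?_
    split_ifs <;> simp
  rw [Finset.sum_congr rfl fun I _ => h1 I, Finset.sum_comm]
  refine Finset.sum_congr rfl fun d _ => ?_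
  rw [← Finset.mul_sum]
  congr 1
  have h3 := Finset.sum_powerset_apply_card f (x := JJ n d)
  have h4 : ∑ I : Finset (Rp (ZMod n)), (if I ⊆ JJ n d then f I.card else 0) =
      ∑ I ∈ (JJ n d).powerset, f I.card := by
    rw [← Finset.sum_filter]
    refine Finset.sum_congr ?_ fun _ _ => rfl
    ext I
    simp
  rw [h4, h3]
  refine Finset.sum_congr rfl fun k _ => ?_
  rw [nsmul_eq_mul]

theorem card_JJ' {n d : ℕ} [NeZero n] (hn : Odd n) (hd : d ∈ n.divisors) :
    (JJ n d).card = (n / d - 1) / 2 := by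
  have hdn := Nat.dvd_of_mem_divisors hd
  have h1 := card_JJ hn hdn (Nat.div_mul_cancel hdn)
  omega

/-- signed number of generating sets with more than `u` pairs -/
theorem gn_main {n u : ℕ} [NeZero n] (hn : Odd n) (hu : 1 ≤ u) (f : ℕ → ℤ)
    (hf : ∀ k, f k = if u < k then (-1) ^ k else 0) :
    ∑ d ∈ n.divisors, ArithmeticFunction.moebius d *
        ∑ k ∈ range ((JJ n d).card + 1), ((JJ n d).card.choose k : ℤ) * f k =
      (-1) ^ (u + 1) * ∑ d ∈ n.divisors, ArithmeticFunction.moebius d *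
        (((n / d - 1) / 2 - 1).choose u : ℤ) := by
  rw [Finset.mul_sum]
  refine Finset.sum_congr rfl fun d hd => ?_
  have h1 : ∑ k ∈ range ((JJ n d).card + 1), ((JJ n d).card.choose k : ℤ) * f k =
      ∑ k ∈ range ((JJ n d).card + 1), ((JJ n d).card.choose k : ℤ) *
        (if u < k then (-1) ^ k else 0) :=
    Finset.sum_congr rfl fun k _ => by rw [hf]
  rw [h1, alt_sum u hu, card_JJ' hn hd]
  ring

/-- the terms with `d ≠ 1` are small -/
theorem tail_le {n u : ℕ} [NeZero n] (hn : Odd n) (hu : 2 ≤ u) :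
    ∑ d ∈ n.divisors.erase 1, ((((n / d - 1) / 2 - 1).choose u : ℕ) : ℚ) ≤
      (if u = 2 then 1 / 4 else 1 / 12) * ((((n - 3) / 2).choose u : ℕ) : ℚ) := by
  set C : ℚ := ((((n - 3) / 2).choose u : ℕ) : ℚ) with hC
  have hC0 : 0 ≤ C := by positivity
  set c : ℚ := if u = 2 then 1 else 1 / 3 with hc
  have hc0 : 0 ≤ c := by
    rw [hc]
    split_ifs <;> norm_num
  have hterm : ∀ d ∈ n.divisors.erase 1, ((((n / d - 1) / 2 - 1).choose u : ℕ) : ℚ) ≤
      C * (c * (1 / (d : ℚ) ^ 2)) := by
    intro d hd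
    rw [mem_erase] at hd
    have hdn := Nat.dvd_of_mem_divisors hd.2
    obtain ⟨e, he⟩ := odd_of_dvd hn hdn
    have hd3 : 3 ≤ d := by
      have := hd.1
      omega
    obtain ⟨f, hf⟩ := odd_of_dvd hn (Nat.div_dvd_of_dvd hdn)
    have hnd : d * (n / d) = n := Nat.mul_div_cancel' hdn
    have h1 : d * ((n / d - 1) / 2 - 1) ≤ (n - 3) / 2 := by
      rw [hf] at hnd ⊢
      have h2 : (2 * f + 1 - 1) / 2 = f := by omega
      rw [h2]
      have h3 : n = 2 * (d * f) + d := by
        rw [← hnd]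
        ring
      rcases Nat.eq_zero_or_pos f with h4 | h4
      · rw [h4]
        simp
      · have h5 : d * (f - 1) + d = d * f := by
          have : f = f - 1 + 1 := by omega
          conv_rhs => rw [this, mul_add, mul_one]
        omega
    have h2 := choose_div d (by omega) _ _ h1 u
    have h3 : ((d : ℚ) ^ u) * ((((n / d - 1) / 2 - 1).choose u : ℕ) : ℚ) ≤ C := by
      rw [hC]
      exact_mod_cast h2
    have hd0 : (0 : ℚ) < d := by
      exact_mod_cast (by omega : 0 < d)
    have hd3' : (3 : ℚ) ≤ d := by exact_mod_cast hd3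
    have h4 : (1 : ℚ) / (d : ℚ) ^ u ≤ c * (1 / (d : ℚ) ^ 2) := by
      rw [hc]
      split_ifs with h5
      · rw [h5, one_mul]
      · have h6 : (3 : ℚ) * (d : ℚ) ^ 2 ≤ (d : ℚ) ^ u := by
          calc (3 : ℚ) * (d : ℚ) ^ 2 ≤ d * (d : ℚ) ^ 2 :=
                mul_le_mul_of_nonneg_right hd3' (by positivity)
            _ = (d : ℚ) ^ 3 := by ring
            _ ≤ (d : ℚ) ^ u := pow_le_pow_right₀ (by linarith) (by omega)
        calc (1 : ℚ) / (d : ℚ) ^ u ≤ 1 / (3 * (d : ℚ) ^ 2) :=
              one_div_le_one_div_of_le (by positivity) h6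
          _ = 1 / 3 * (1 / (d : ℚ) ^ 2) := by
              field_simp
    calc ((((n / d - 1) / 2 - 1).choose u : ℕ) : ℚ)
        = ((d : ℚ) ^ u) * ((((n / d - 1) / 2 - 1).choose u : ℕ) : ℚ) * (1 / (d : ℚ) ^ u) := by
          field_simp
      _ ≤ C * (1 / (d : ℚ) ^ u) := mul_le_mul_of_nonneg_right h3 (by positivity)
      _ ≤ C * (c * (1 / (d : ℚ) ^ 2)) := mul_le_mul_of_nonneg_left h4 hC0
  have hsub : n.divisors.erase 1 ⊆ (range n).image fun x => 2 * x + 3 := by
    intro d hd
    rw [mem_erase] at hd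
    have hdn := Nat.dvd_of_mem_divisors hd.2
    obtain ⟨e, he⟩ := odd_of_dvd hn hdn
    rw [mem_image]
    refine ⟨e - 1, ?_, ?_⟩
    · rw [mem_range]
      have := Nat.le_of_dvd (Nat.pos_of_ne_zero (NeZero.ne n)) hdn
      have := hd.1
      omega
    · have := hd.1
      omega
  calc ∑ d ∈ n.divisors.erase 1, ((((n / d - 1) / 2 - 1).choose u : ℕ) : ℚ)
      ≤ ∑ d ∈ n.divisors.erase 1, C * (c * (1 / (d : ℚ) ^ 2)) := Finset.sum_le_sum hterm
    _ ≤ ∑ d ∈ (range n).image (fun x : ℕ => (2 * x + 3 : ℕ)), C * (c * (1 / (d : ℚ) ^ 2)) := by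
        refine Finset.sum_le_sum_of_subset_of_nonneg hsub fun d _ _ => ?_
        positivity
    _ = ∑ x ∈ range n, C * (c * (1 / (2 * (x : ℚ) + 3) ^ 2)) := by
        rw [Finset.sum_image]
        · refine Finset.sum_congr rfl fun x _ => ?_
          push_cast
          rfl
        · intro a _ b _ hab
          have hab' : 2 * a + 3 = 2 * b + 3 := hab
          omega
    _ = C * (c * ∑ x ∈ range n, 1 / (2 * (x : ℚ) + 3) ^ 2) := by
        rw [Finset.mul_sum, Finset.mul_sum]
    _ ≤ C * (c * (1 / 4)) := by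
        refine mul_le_mul_of_nonneg_left (mul_le_mul_of_nonneg_left (odd_squares_le n) hc0) hC0
    _ = (if u = 2 then 1 / 4 else 1 / 12) * C := by
        rw [hc]
        split_ifs <;> ring

end Pool.Agent.R546.EV
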