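import Mathlib
import Pool.Agent.R546.EV.Count

set_option autoImplicit false

/-!
# The signed count does not vanish (MP_257582_lc)
-/

namespace Pool.Agent.R546.EV

open Finset
open Pool.Agent.W332.Kd

theorem gn_empty {n : ℕ} [NeZero n] (hn : 3 ≤ n) : ¬ Gn n (∅ : Finset (Rp (ZMod n))) := by
  intro h
  have := h n (dvd_refl n) (by simp)
  omega

theorem two_gen {n : ℕ} [NeZero n] (hn : Odd n) (hn5 : 5 ≤ n) :
    ∃ Y : Finset (Rp (ZMod n)), Y.card = 2 ∧ ∀ j ∈ Y, Gn n {j} := by
  refine ⟨prs (insert 0 (crc n 2)), ?_, ?_⟩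
  · have h1 := card_prs (card_zmod_odd hn) (insert 0 (crc n 2)) (mem_insert_self _ _) (by
      intro a ha
      rw [mem_insert] at ha ⊢
      rcases ha with rfl | ha
      · exact Or.inl neg_zero
      · exact Or.inr ((crc_sy (by omega)).neg _ ha))
    rw [card_insert_of_notMem (crc_sy (by omega)).zero, crc_card (by omega)] at h1
    omega
  · intro j hj d hd hI
    rw [mem_prs, mem_insert] at hj
    have h0 := ((mem_Rp _).1 j.2).1
    rcases hj with hj | hj
    · exact absurd hj h0
    have h1 := hI j (mem_singleton_self j)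
    rw [← red_eq_zero hd] at h1
    have hdo := odd_of_dvd hn hd
    rw [mem_crc] at hj
    obtain ⟨i, ⟨hi1, hi2⟩, hij⟩ := hj
    have h2 : red hd (i : ZMod n) = 0 := by
      rcases hij with h | h
      · rw [h]
        exact h1
      · rw [← neg_eq_zero, ← map_neg, h]
        exact h1
    have h3 : red hd (i : ZMod n) = (i : ZMod d) := by
      change ZMod.castHom hd (ZMod d) (i : ZMod n) = _
      rw [map_natCast]
    rw [h3, ZMod.natCast_eq_zero_iff] at h2
    have h4 : d ≤ 2 := (Nat.le_of_dvd (by omega) h2).trans hi2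
    obtain ⟨e, he⟩ := hdo
    omega

open Classical in
theorem main_one {n : ℕ} [NeZero n] (hn : Odd n) (hn5 : 5 ≤ n) :
    1 ≤ ∑ I : Finset (Rp (ZMod n)), (if Gn n I then (if 1 < I.card then (-1 : ℤ) ^ I.card else 0)
      else 0) := by
  have h1 := gn_sum (n := n) (fun k => (-1 : ℤ) ^ k)
  have h2 : ∀ d ∈ n.divisors, ArithmeticFunction.moebius d *
      ∑ k ∈ range ((JJ n d).card + 1), ((JJ n d).card.choose k : ℤ) * (-1) ^ k =
      if d = n then ArithmeticFunction.moebius n else 0 := by
    intro d hd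
    have hdn := Nat.dvd_of_mem_divisors hd
    have h3 : ∑ k ∈ range ((JJ n d).card + 1), ((JJ n d).card.choose k : ℤ) * (-1) ^ k =
        if (JJ n d).card = 0 then 1 else 0 := by
      rw [← Int.alternating_sum_range_choose]
      exact Finset.sum_congr rfl fun k _ => mul_comm _ _
    rw [h3]
    have h4 := card_JJ hn hdn (Nat.div_mul_cancel hdn)
    by_cases h5 : d = n
    · subst h5
      have h6 : d / d = 1 := Nat.div_self (Nat.pos_of_ne_zero (NeZero.ne d))
      rw [if_pos rfl, if_pos (by omega), mul_one]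
    · rw [if_neg h5, if_neg, mul_zero]
      intro h6
      rw [h6] at h4
      have h7 : n / d = 1 := by omega
      apply h5
      have h8 := Nat.div_mul_cancel hdn
      rw [h7, one_mul] at h8
      exact h8
  rw [Finset.sum_congr rfl h2, Finset.sum_ite_eq' n.divisors n, if_pos (by
    rw [Nat.mem_divisors]
    exact ⟨dvd_refl n, NeZero.ne n⟩)] at h1
  have h3 : ∑ I : Finset (Rp (ZMod n)), (if Gn n I then (if 1 < I.card then (-1 : ℤ) ^ I.card else 0)
      else 0) = ArithmeticFunction.moebius n +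
      (univ.filter fun I : Finset (Rp (ZMod n)) => Gn n I ∧ I.card = 1).card := by
    rw [← h1, Finset.card_filter, Nat.cast_sum, ← Finset.sum_add_distrib]
    refine Finset.sum_congr rfl fun I _ => ?_
    by_cases hG : Gn n I
    · rw [if_pos hG, if_pos hG]
      have hne : I.card ≠ 0 := by
        intro h
        rw [card_eq_zero] at h
        subst h
        exact gn_empty (by omega) hG
      by_cases hc : I.card = 1
      · rw [if_neg (show ¬ 1 < I.card by omega),
          if_pos (show Gn n I ∧ I.card = 1 from ⟨hG, hc⟩), hc]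
        norm_num
      · rw [if_pos (show 1 < I.card by omega),
          if_neg (show ¬ (Gn n I ∧ I.card = 1) from fun h => hc h.2)]
        norm_num
    · rw [if_neg hG, if_neg hG, if_neg (fun h => hG h.1)]
      norm_num
  obtain ⟨Y, hY, hYg⟩ := two_gen hn hn5
  have h4 : 2 ≤ (univ.filter fun I : Finset (Rp (ZMod n)) => Gn n I ∧ I.card = 1).card := by
    rw [← hY, ← Finset.card_image_of_injective Y (f := fun j => ({j} : Finset (Rp (ZMod n))))
      (Finset.singleton_injective)]
    refine card_le_card ?_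
    intro I hI
    rw [mem_image] at hI
    obtain ⟨j, hj, rfl⟩ := hI
    rw [mem_filter]
    exact ⟨mem_univ _, hYg j hj, card_singleton j⟩
  have h5 := abs_le.1 (ArithmeticFunction.abs_moebius_le_one (n := n))
  rw [h3]
  have h6 : (2 : ℤ) ≤ (univ.filter fun I : Finset (Rp (ZMod n)) => Gn n I ∧ I.card = 1).card := by
    exact_mod_cast h4
  linarith [h5.1]

open Classical in
/-- lower bound for the main sum, `u ≥ 2` -/
theorem main_large {n u : ℕ} [NeZero n] (hn : Odd n) (hu : 2 ≤ u) :
    (1 - (if u = 2 then 1 / 4 else 1 / 12)) * ((((n - 3) / 2).choose u : ℕ) : ℚ) ≤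
      |((∑ I : Finset (Rp (ZMod n)), (if Gn n I then (if u < I.card then (-1 : ℤ) ^ I.card else 0)
      else 0) : ℤ) : ℚ)| := by
  have h1 := gn_sum (n := n) (fun k => if u < k then (-1 : ℤ) ^ k else 0)
  rw [gn_main hn (by omega) _ (fun k => rfl)] at h1
  rw [h1]
  push_cast
  rw [abs_mul, abs_pow, abs_neg, abs_one, one_pow, one_mul]
  have h1mem : 1 ∈ n.divisors := Nat.one_mem_divisors.2 (NeZero.ne n)
  rw [← Finset.add_sum_erase _ _ h1mem]
  have h2 : ((ArithmeticFunction.moebius 1 : ℤ) : ℚ) *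
      ((((n / 1 - 1) / 2 - 1).choose u : ℕ) : ℚ) = ((((n - 3) / 2).choose u : ℕ) : ℚ) := by
    rw [ArithmeticFunction.moebius_apply_one, Nat.div_one]
    have : (n - 1) / 2 - 1 = (n - 3) / 2 := by omega
    rw [this]
    push_cast
    ring
  rw [h2]
  have h3 := tail_le hn hu
  have h4 : |∑ d ∈ n.divisors.erase 1, ((ArithmeticFunction.moebius d : ℤ) : ℚ) *
      ((((n / d - 1) / 2 - 1).choose u : ℕ) : ℚ)| ≤
      ∑ d ∈ n.divisors.erase 1, ((((n / d - 1) / 2 - 1).choose u : ℕ) : ℚ) := by
    refine (Finset.abs_sum_le_sum_abs _ _).trans (Finset.sum_le_sum fun d _ => ?_)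
    rw [abs_mul, Nat.abs_cast]
    have h5 : |((ArithmeticFunction.moebius d : ℤ) : ℚ)| ≤ 1 := by
      have := ArithmeticFunction.abs_moebius_le_one (n := d)
      exact_mod_cast this
    calc |((ArithmeticFunction.moebius d : ℤ) : ℚ)| *
          ((((n / d - 1) / 2 - 1).choose u : ℕ) : ℚ) ≤
          1 * ((((n / d - 1) / 2 - 1).choose u : ℕ) : ℚ) :=
          mul_le_mul_of_nonneg_right h5 (by positivity)
      _ = _ := one_mul _
  have h5 := abs_le.1 h4
  refine le_trans ?_ (le_abs_self _)
  linarith [h5.1]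

/-- **The signed count does not vanish.** -/
theorem nonvan {n u : ℕ} [NeZero n] (hn : Odd n) (hu : 1 ≤ u) (hun : 2 * u + 3 ≤ n)
    (Q : Finset (Rp (ZMod n)) → Prop) [DecidablePred Q]
    (hup : ∀ I, Q I → Gn n I ∧ u < I.card)
    (hlow : ∀ I, Gn n I → u < I.card → (∀ x, ¬ IsBad n u x I) → Q I) :
    ∑ I : Finset (Rp (ZMod n)), (-1 : ℤ) ^ I.card * (if Q I then 1 else 0) ≠ 0 := by
  classical
  intro h0
  set S0 : ℤ := ∑ I : Finset (Rp (ZMod n)),
    (if Gn n I then (if u < I.card then (-1 : ℤ) ^ I.card else 0) else 0) with hS0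
  set E := univ.filter fun I : Finset (Rp (ZMod n)) => Gn n I ∧ u < I.card ∧ ¬ Q I with hE
  have h1 : S0 = ∑ I ∈ E, (-1 : ℤ) ^ I.card := by
    have h2 : S0 - ∑ I ∈ E, (-1 : ℤ) ^ I.card = 0 := by
      rw [← h0, hS0, hE, Finset.sum_filter, ← Finset.sum_sub_distrib]
      refine Finset.sum_congr rfl fun I _ => ?_
      by_cases hQ : Q I
      · obtain ⟨h3, h4⟩ := hup I hQ
        rw [if_pos h3, if_pos h4, if_neg (fun h => h.2.2 hQ), if_pos hQ]
        ring
      · by_cases h3 : Gn n I
        · by_cases h4 : u < I.card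
          · rw [if_pos h3, if_pos h4, if_pos ⟨h3, h4, hQ⟩, if_neg hQ]
            ring
          · rw [if_pos h3, if_neg h4, if_neg (fun h => h4 h.2.1), if_neg hQ]
            ring
        · rw [if_neg h3, if_neg (fun h => h3 h.1), if_neg hQ]
          ring
    linarith
  have hEbad : ∀ I ∈ E, ∃ x, IsBad n u x I := by
    intro I hI
    rw [hE, mem_filter] at hI
    by_contra hcon
    push Not at hcon
    exact hI.2.2.2 (hlow I hI.2.1 hI.2.2.1 hcon)
  have hx3 : ∀ x I, IsBad n u x I → 3 ≤ u ∧ x < n := by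
    rintro x I ⟨-, d, w, hd, W, hhd, -, -, -, h1w, hwd, hwu, -⟩
    have h2 : 1 * (2 * x + 3) ≤ w * (2 * x + 3) := Nat.mul_le_mul_right _ h1w
    have h3 : (2 * x + 3) * 1 ≤ (2 * x + 3) * d := Nat.mul_le_mul_left _ (by omega)
    omega
  rcases Nat.lt_or_ge u 3 with hu3 | hu3
  · have hE0 : E = ∅ := by
      rw [Finset.eq_empty_iff_forall_notMem]
      intro I hI
      obtain ⟨x, hx⟩ := hEbad I hI
      have := (hx3 x I hx).1
      omega
    rw [hE0, Finset.sum_empty] at h1
    rcases Nat.lt_or_ge u 2 with hu2 | hu2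
    · have hu1 : u = 1 := by omega
      subst hu1
      have h2 := main_one hn (by omega)
      rw [← hS0, h1] at h2
      norm_num at h2
    · have hu2' : u = 2 := by omega
      subst hu2'
      have h2 := main_large (n := n) (u := 2) hn le_rfl
      rw [← hS0, h1, if_pos rfl] at h2
      have h3 : 0 < ((n - 3) / 2).choose 2 := Nat.choose_pos (by omega)
      have h4 : (0 : ℚ) < ((((n - 3) / 2).choose 2 : ℕ) : ℚ) := by exact_mod_cast h3
      norm_num at h2
      linarith
  · have h2 := main_large (n := n) (u := u) hn (by omega)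
    rw [← hS0, if_neg (by omega)] at h2
    set C : ℚ := ((((n - 3) / 2).choose u : ℕ) : ℚ) with hC
    have h3 : 0 < ((n - 3) / 2).choose u := Nat.choose_pos (by omega)
    have h4 : (0 : ℚ) < C := by
      rw [hC]
      exact_mod_cast h3
    have h5 : |(S0 : ℚ)| ≤ (E.card : ℚ) := by
      rw [h1]
      push_cast
      refine (Finset.abs_sum_le_sum_abs _ _).trans ?_
      rw [Finset.sum_congr rfl (g := fun _ => (1 : ℚ))]
      · simp
      · intro I _
        rw [abs_pow, abs_neg, abs_one, one_pow]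
    have h6 : E ⊆ (range n).biUnion fun x => univ.filter fun I => IsBad n u x I := by
      intro I hI
      obtain ⟨x, hx⟩ := hEbad I hI
      rw [mem_biUnion]
      refine ⟨x, mem_range.2 (hx3 x I hx).2, ?_⟩
      rw [mem_filter]
      exact ⟨mem_univ _, hx⟩
    have h7 : E.card ≤ ∑ x ∈ range n, (univ.filter fun I => IsBad n u x I).card :=
      (card_le_card h6).trans Finset.card_biUnion_le
    have h8 : ∀ x ∈ range n, (((univ.filter fun I => IsBad n u x I).card : ℕ) : ℚ) ≤
        C / 8 * (((x : ℚ) + 2) / 2 ^ x) := by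
      intro x _
      have h9 : ((8 * 2 ^ x * (univ.filter fun I => IsBad n u x I).card : ℕ) : ℚ) ≤
          (((x + 2) * ((n - 3) / 2).choose u : ℕ) : ℚ) := by
        exact_mod_cast bad_card (u := u) (x := x) hn
      rw [Nat.cast_mul, Nat.cast_mul, Nat.cast_mul, Nat.cast_pow, ← hC] at h9
      push_cast at h9
      have h10 : (0 : ℚ) < 2 ^ x := by positivity
      have h11 : C / 8 * (((x : ℚ) + 2) / 2 ^ x) = (((x : ℚ) + 2) * C) / (8 * 2 ^ x) := by
        field_simp
      rw [h11, le_div_iff₀ (by positivity)]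
      linarith
    have h9 : (E.card : ℚ) ≤ C / 8 * 6 := by
      calc (E.card : ℚ) ≤ ((∑ x ∈ range n, (univ.filter fun I => IsBad n u x I).card : ℕ) : ℚ) := by
            exact_mod_cast h7
        _ = ∑ x ∈ range n, (((univ.filter fun I => IsBad n u x I).card : ℕ) : ℚ) := by
            push_cast
            rfl
        _ ≤ ∑ x ∈ range n, C / 8 * (((x : ℚ) + 2) / 2 ^ x) := Finset.sum_le_sum h8
        _ = C / 8 * ∑ x ∈ range n, ((x : ℚ) + 2) / 2 ^ x := by rw [Finset.mul_sum]
        _ ≤ C / 8 * 6 := mul_le_mul_of_nonneg_left (weights_le n) (by positivity)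
    linarith

end Pool.Agent.R546.EV
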