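import Mathlib
import Pool.Agent.W332.Kc.Cone
import Pool.Agent.TH669.KS.Cycles
import Pool.Agent.R546.EV.Atom
import Pool.Agent.R546.EV.NonVan

set_option autoImplicit false

/-!
# Vertex connectivity of circulant graphs and their cones (MP_257582_lc)
-/

namespace Pool.Agent.R546.EV

open Finset
open Pool.Agent.W332.Kd
open Pool.Agent.W332.Kc (coneO)
open Pool.Agent.TH669.KS (HasC hasC_of_list ham_cycle)
open scoped Pointwise

/-- `G` is `k`-connected -/
def KC (k : ℕ) {V : Type} [Fintype V] (G : SimpleGraph V) : Prop :=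
  k < Fintype.card V ∧ ∀ X : Finset V, X.card < k → (G.induce {v | v ∉ X}).Connected

theorem KC_iso {k : ℕ} {V W : Type} [Fintype V] [Fintype W] {G : SimpleGraph V}
    {H : SimpleGraph W} (φ : G ≃g H) (h : KC k G) : KC k H := by
  refine ⟨by rw [← Fintype.card_congr φ.toEquiv]; exact h.1, ?_⟩
  intro X hX
  have h1 := h.2 (X.map φ.symm.toEquiv.toEmbedding) (by rwa [card_map])
  have hmem : ∀ v : V, v ∉ X.map φ.symm.toEquiv.toEmbedding → φ v ∉ X := by
    intro v hv hv'
    apply hv
    rw [mem_map]
    exact ⟨φ v, hv', φ.symm_apply_apply v⟩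
  refine SimpleGraph.Connected.map
    (⟨fun v => ⟨φ v.1, hmem v.1 v.2⟩, fun {a b} hab => φ.map_adj_iff.2 hab⟩ :
      G.induce {v | v ∉ X.map φ.symm.toEquiv.toEmbedding} →g H.induce {v | v ∉ X}) ?_ h1
  rintro ⟨w, hw⟩
  refine ⟨⟨φ.symm w, ?_⟩, ?_⟩
  · intro hmem'
    rw [mem_map] at hmem'
    obtain ⟨y, hy, hy'⟩ := hmem'
    have : y = w := φ.symm.injective hy'
    subst this
    exact hw hy
  · apply Subtype.ext
    exact φ.apply_symm_apply w

theorem KC.connected {k : ℕ} {V : Type} [Fintype V] {G : SimpleGraph V} (h : KC k G)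
    (hk : 1 ≤ k) : G.Connected := by
  have h1 := h.2 ∅ (by rw [card_empty]; omega)
  refine SimpleGraph.Connected.map
    (⟨fun v => v.1, fun {a b} hab => hab⟩ : G.induce {v | v ∉ (∅ : Finset V)} →g G) ?_ h1
  intro w
  exact ⟨⟨w, by simp⟩, rfl⟩

theorem mem_un_self {A : Type} [AddCommGroup A] [Fintype A] [DecidableEq A] {I : Finset (Rp A)}
    {j : Rp A} (hj : j ∈ I) : j.1 ∈ un I := by
  rw [un, mem_biUnion]
  exact ⟨j, hj, (mem_pr _ _).2 (Or.inl rfl)⟩

theorem gn_of_conn {n : ℕ} [NeZero n] (I : Finset (Rp (ZMod n)))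
    (h : (cay (un I)).Connected) : Gn n I := by
  intro d hd hI
  have h1 : ∀ x y : ZMod n, (cay (un I)).Reachable x y → red hd x = red hd y := by
    rintro x y ⟨w⟩
    induction w with
    | nil => rfl
    | cons hadj _ ih =>
      rw [← ih]
      rw [cay_adj (un_sy I), un, mem_biUnion] at hadj
      obtain ⟨j, hj, hj'⟩ := hadj
      have h2 := (red_eq_zero hd j.1).2 (hI j hj)
      rw [mem_pr] at hj'
      rw [← sub_eq_zero, ← neg_eq_zero, neg_sub, ← map_sub]
      rcases hj' with h3 | h3
      · rw [h3, h2]
      · rw [h3, map_neg, h2, neg_zero]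
  have h2 := h1 0 1 (h.preconnected 0 1)
  have h3 : red hd (1 : ZMod n) = 1 := map_one (ZMod.castHom hd (ZMod d))
  rw [map_zero, h3] at h2
  have h4 : ((1 : ℕ) : ZMod d) = 0 := by
    rw [Nat.cast_one]
    exact h2.symm
  rw [ZMod.natCast_eq_zero_iff, Nat.dvd_one] at h4
  exact h4

theorem closure_of_conn {n : ℕ} [NeZero n] (I : Finset (Rp (ZMod n)))
    (h : (cay (un I)).Connected) : AddSubgroup.closure (un I : Set (ZMod n)) = ⊤ := by
  have h1 : ∀ x y : ZMod n, (cay (un I)).Reachable x y →
      y - x ∈ AddSubgroup.closure (un I : Set (ZMod n)) := by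
    rintro x y ⟨w⟩
    induction w with
    | nil => rw [sub_self]; exact zero_mem _
    | @cons u v w' hadj _ ih =>
      rw [cay_adj (un_sy I)] at hadj
      have h2 : w' - u = (w' - v) + (v - u) := by abel
      rw [h2]
      exact add_mem ih (AddSubgroup.subset_closure hadj)
  rw [eq_top_iff]
  intro x _
  have := h1 0 x (h.preconnected 0 x)
  rwa [sub_zero] at this

/-- Hamiltonian cycles as lists -/
theorem ham_list {n : ℕ} [NeZero n] (hn : 3 ≤ n) (I : Finset (Rp (ZMod n)))
    (h : (cay (un I)).Connected) :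
    ∃ (L : List (ZMod n)) (α β : ZMod n), L.length = n ∧ L.Nodup ∧ L.IsChain (cay (un I)).Adj ∧
      L.head? = some α ∧ L.getLast? = some β ∧ (cay (un I)).Adj β α := by
  obtain ⟨L, α, β, hC, hlen⟩ := ham_cycle (un I : Set (ZMod n)) (closure_of_conn I h)
    (by rw [Nat.card_eq_fintype_card, ZMod.card]; exact hn)
  have hst : ∀ x y : ZMod n, Pool.Agent.TH669.KP.Stp (un I : Set (ZMod n)) x y →
      (cay (un I)).Adj x y := by
    intro x y hxy
    rw [cay_adj (un_sy I)]
    rcases hxy with h1 | h1
    · exact h1
    · have := (un_sy I).neg _ h1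
      rwa [neg_sub] at this
  refine ⟨L, α, β, ?_, hC.nd, hC.ch.imp hst, hC.hd, hC.lt, hst _ _ hC.cl⟩
  rw [hlen, Nat.card_eq_fintype_card, ZMod.card]

theorem ham_cay {n : ℕ} [NeZero n] (hn : 3 ≤ n) (I : Finset (Rp (ZMod n)))
    (h : (cay (un I)).Connected) : HasC (cay (un I)) n := by
  obtain ⟨L, α, β, h1, h2, h3, h4, h5, h6⟩ := ham_list hn I h
  exact hasC_of_list _ n L h1.ge h2 h3 h4 h5 h6

theorem ham_cone {n : ℕ} [NeZero n] (hn : 3 ≤ n) (I : Finset (Rp (ZMod n)))
    (h : (cay (un I)).Connected) : HasC (coneO (cay (un I))) (n + 1) := by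
  obtain ⟨L, α, β, h1, h2, h3, h4, h5, h6⟩ := ham_list hn I h
  have hsome : ∀ x y : ZMod n, (cay (un I)).Adj x y → (coneO (cay (un I))).Adj (some x) (some y) := by
    intro x y hxy
    refine ⟨fun h' => hxy.ne (Option.some_injective _ h'), ?_⟩
    intro x' y' hx hy
    cases hx
    cases hy
    exact hxy
  have hnone : ∀ x : ZMod n, (coneO (cay (un I))).Adj none (some x) := by
    intro x
    refine ⟨fun h' => (by cases h'), ?_⟩
    intro x' y' hx
    cases hx
  refine hasC_of_list _ (n + 1) (none :: L.map some) ?_ ?_ ?_ (α := none) (β := some β) rfl ?_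
    (hnone β).symm
  · rw [List.length_cons, List.length_map, h1]
  · rw [List.nodup_cons]
    refine ⟨by simp, h2.map (Option.some_injective _)⟩
  · have h7 : (L.map some).IsChain (coneO (cay (un I))).Adj :=
      List.isChain_map_of_isChain some (fun a b hab => hsome a b hab) h3
    cases L with
    | nil => simp at h4
    | cons a L' =>
      rw [List.map_cons] at h7 ⊢
      exact List.IsChain.cons_cons (hnone a) h7
  · cases L with
    | nil => simp at h4
    | cons a L' =>
      rw [List.map_cons, List.getLast?_cons_cons, ← List.map_cons, List.getLast?_map, h5]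
      rfl

theorem KC_cone {k : ℕ} {A : Type} [Fintype A] {G : SimpleGraph A} (h : KC k G) :
    KC (k + 1) (coneO G) := by
  classical
  refine ⟨?_, ?_⟩
  · rw [Fintype.card_option]
    have := h.1
    omega
  · intro X hX
    by_cases hn : (none : Option A) ∈ X
    · set X' : Finset A := univ.filter fun a => some a ∈ X with hX'
      have hc : X'.card < k := by
        have h1 : X'.map Function.Embedding.some ⊆ X.erase none := by
          intro y hy
          rw [mem_map] at hy
          obtain ⟨a, ha, rfl⟩ := hy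
          rw [hX', mem_filter] at ha
          rw [mem_erase]
          exact ⟨fun h' => (by cases h'), ha.2⟩
        have h2 := card_le_card h1
        rw [card_map, card_erase_of_mem hn] at h2
        have h3 : 0 < X.card := card_pos.2 ⟨_, hn⟩
        omega
      have hmem : ∀ a : A, a ∉ X' → some a ∉ X := by
        intro a ha ha'
        apply ha
        rw [hX', mem_filter]
        exact ⟨mem_univ _, ha'⟩
      refine SimpleGraph.Connected.map
        (⟨fun v => ⟨some v.1, hmem v.1 v.2⟩, fun {a b} hab => ?_⟩ :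
          G.induce {v | v ∉ X'} →g (coneO G).induce {v | v ∉ X}) ?_ (h.2 X' hc)
      · refine ⟨fun h' => ?_, ?_⟩
        · have hab' : G.Adj a.1 b.1 := hab
          exact hab'.ne (Option.some_injective _ h')
        · intro x y hx hy
          cases hx
          cases hy
          exact hab
      · rintro ⟨w, hw⟩
        cases w with
        | none => exact absurd hn hw
        | some a =>
          refine ⟨⟨a, fun ha => hw ?_⟩, rfl⟩
          rw [hX', mem_filter] at ha
          exact ha.2
    · have hadj : ∀ v : {v | v ∉ X}, ((coneO G).induce {v | v ∉ X}).Reachable ⟨none, hn⟩ v := by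
        rintro ⟨v, hv⟩
        cases v with
        | none => exact SimpleGraph.Reachable.refl _
        | some a =>
          apply SimpleGraph.Adj.reachable
          refine ⟨fun h' => (by cases h'), ?_⟩
          intro x y hx
          cases hx
      have : Nonempty {v | v ∉ X} := ⟨⟨none, hn⟩⟩
      exact ⟨fun u v => (hadj u).symm.trans (hadj v)⟩

theorem conn_of_cone {A : Type} [Fintype A] {G : SimpleGraph A} (h : KC 2 (coneO G)) :
    G.Connected := by
  have h1 := h.2 {none} (by simp)
  have hget : ∀ v : {v : Option A | v ∉ ({none} : Finset (Option A))}, v.1.isSome := by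
    rintro ⟨v, hv⟩
    cases v with
    | none => exact absurd (mem_singleton_self _) hv
    | some a => rfl
  refine SimpleGraph.Connected.map
    (⟨fun v => v.1.get (hget v), fun {a b} hab => ?_⟩ :
      (coneO G).induce {v | v ∉ ({none} : Finset (Option A))} →g G) ?_ h1
  · exact hab.2 _ _ (Option.some_get (hget a)).symm (Option.some_get (hget b)).symm
  · intro a
    exact ⟨⟨some a, by simp⟩, rfl⟩

theorem cone_deg_some {A : Type} [Finite A] (G : SimpleGraph A) (a : A) :
    ((coneO G).neighborSet (some a)).ncard = (G.neighborSet a).ncard + 1 := by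
  have h1 : (coneO G).neighborSet (some a) = insert none (some '' G.neighborSet a) := by
    ext w
    rw [SimpleGraph.mem_neighborSet, Set.mem_insert_iff]
    constructor
    · rintro ⟨h1, h2⟩
      cases w with
      | none => exact Or.inl rfl
      | some b => exact Or.inr ⟨b, h2 a b rfl rfl, rfl⟩
    · rintro (rfl | ⟨b, hb, rfl⟩)
      · refine ⟨fun h => (by cases h), fun x y _ hy => (by cases hy)⟩
      · refine ⟨fun h => ?_, fun x y hx hy => ?_⟩
        · have hb' : G.Adj a b := hb
          exact hb'.ne (Option.some_injective _ h)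
        · cases hx
          cases hy
          exact hb
  rw [h1, Set.ncard_insert_of_notMem, Set.ncard_image_of_injective _ (Option.some_injective _)]
  rintro ⟨b, -, hb⟩
  cases hb

theorem map_deg {V W : Type} (G : SimpleGraph V) (e : V ≃ W) (v : V) :
    ((G.map e.toEmbedding).neighborSet (e v)).ncard = (G.neighborSet v).ncard := by
  have h1 : (G.map e.toEmbedding).neighborSet (e v) = e '' G.neighborSet v := by
    ext w
    rw [SimpleGraph.mem_neighborSet, SimpleGraph.map_adj]
    constructor
    · rintro ⟨x, y, h, hx, hy⟩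
      have : x = v := e.injective hx
      subst this
      exact ⟨y, h, hy⟩
    · rintro ⟨y, hy, rfl⟩
      exact ⟨v, y, hy, rfl, rfl⟩
  rw [h1, Set.ncard_image_of_injective _ e.injective]

end Pool.Agent.R546.EV
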