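import Mathlib
import Pool.Agent.R546.EV.Conn

set_option autoImplicit false

/-!
# Circulant graphs of small connectivity come from bad sets (MP_257582_lc)
-/

namespace Pool.Agent.R546.EV

open Finset
open Pool.Agent.W332.Kd
open scoped Pointwise

theorem red_of_mem {n h d : ℕ} [NeZero n] (hd : d ∣ n) (hhd : h * d = n) (H : AddSubgroup (ZMod n))
    (hH : Nat.card H = h) {x : ZMod n} (hx : x ∈ H) : red hd x = 0 := by
  rw [red_eq_zero]
  have h1 : h • x = 0 := by
    have h2 : Nat.card H • (⟨x, hx⟩ : H) = 0 := card_nsmul_eq_zero'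
    rw [hH] at h2
    have h3 := congrArg Subtype.val h2
    exact h3
  have h2 : ((h * x.val : ℕ) : ZMod n) = 0 := by
    rw [Nat.cast_mul, ZMod.natCast_zmod_val, ← nsmul_eq_mul]
    exact h1
  rw [ZMod.natCast_eq_zero_iff] at h2
  have h2' : h * d ∣ h * x.val := by
    rw [hhd]
    exact h2
  have hh0 : 0 < h := by
    rcases Nat.eq_zero_or_pos h with h0 | h0
    · exfalso
      exact NeZero.ne n (by rw [← hhd, h0, zero_mul])
    · exact h0
  exact Nat.dvd_of_mul_dvd_mul_left hh0 h2'

theorem exists_bad {n t : ℕ} [NeZero n] (hn : Odd n) (ht : 1 ≤ t) (htn : t < n)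
    (I : Finset (Rp (ZMod n))) (hG : Gn n I) (hI : (t - 1) / 2 < I.card)
    (hK : ¬ KC t (cay (un I))) : ∃ x, IsBad n ((t - 1) / 2) x I := by
  classical
  -- a small cut
  obtain ⟨X, hX, hXc⟩ : ∃ X : Finset (ZMod n), X.card < t ∧
      ¬ ((cay (un I)).induce {v | v ∉ X}).Connected := by
    by_contra hcon
    push Not at hcon
    exact hK ⟨by rw [ZMod.card]; exact htn, hcon⟩
  have hne : Nonempty {v : ZMod n | v ∉ X} := by
    by_contra hcon
    have h1 : X = univ := by
      rw [Finset.eq_univ_iff_forall]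
      intro v
      by_contra hv
      exact hcon ⟨⟨v, hv⟩⟩
    rw [h1, Finset.card_univ, ZMod.card] at hX
    omega
  obtain ⟨a, b, hab⟩ : ∃ a b, ¬ ((cay (un I)).induce {v | v ∉ X}).Reachable a b := by
    by_contra hcon
    push Not at hcon
    exact hXc ⟨hcon⟩
  set F : Finset (ZMod n) := univ.filter fun y =>
    ∃ h : y ∉ X, ((cay (un I)).induce {v | v ∉ X}).Reachable a ⟨y, h⟩ with hF
  have hmF : ∀ y, y ∈ F ↔ ∃ h : y ∉ X, ((cay (un I)).induce {v | v ∉ X}).Reachable a ⟨y, h⟩ := by
    intro y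
    rw [hF, mem_filter]
    simp
  set S0 : Finset (ZMod n) := insert 0 (un I) with hS0
  have h0S : (0 : ZMod n) ∈ S0 := mem_insert_self _ _
  have hsS : ∀ c ∈ S0, -c ∈ S0 := by
    intro c hc
    rw [hS0, mem_insert] at hc ⊢
    rcases hc with rfl | hc
    · exact Or.inl neg_zero
    · exact Or.inr ((un_sy I).neg _ hc)
  have hS0c : S0.card = 2 * I.card + 1 := by
    rw [hS0, card_insert_of_notMem (un_sy I).zero, card_un (card_zmod_odd hn)]
  have hFX : F + S0 ⊆ F ∪ X := by
    intro y hy
    rw [Finset.mem_add] at hy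
    obtain ⟨z, hz, s, hs, rfl⟩ := hy
    rw [mem_union]
    by_cases hyX : z + s ∈ X
    · exact Or.inr hyX
    · refine Or.inl ?_
      rw [hS0, mem_insert] at hs
      rcases hs with rfl | hs
      · rwa [add_zero]
      · obtain ⟨hzX, hz'⟩ := (hmF z).1 hz
        refine (hmF _).2 ⟨hyX, hz'.trans ?_⟩
        apply SimpleGraph.Adj.reachable
        change (cay (un I)).Adj z (z + s)
        rw [cay_adj (un_sy I), add_sub_cancel_left]
        exact hs
  have hAdm : Adm S0 F := by
    constructor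
    · exact ⟨a.1, (hmF _).2 ⟨a.2, SimpleGraph.Reachable.refl _⟩⟩
    · intro h
      have h1 : b.1 ∈ F ∪ X := hFX (h ▸ mem_univ _)
      rw [mem_union] at h1
      rcases h1 with h1 | h1
      · exact hab ((hmF _).1 h1).2
      · exact b.2 h1
  have hbdF : bd S0 F < t := by
    have h1 := card_le_card hFX
    have h2 := card_union_le F X
    unfold bd
    omega
  obtain ⟨H, K, hKH, hKadm, hKbd⟩ := atom S0 h0S hsS F hAdm
  -- orders
  have hKc : Nat.card H = K.card := by
    have h1 : (H : Set (ZMod n)) = (K : Set (ZMod n)) := by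
      ext x
      exact (hKH x).symm
    have h2 : Nat.card H = (H : Set (ZMod n)).ncard := rfl
    rw [h2, h1, Set.ncard_coe_finset]
  have hdvd : K.card ∣ n := by
    have h1 := AddSubgroup.card_addSubgroup_dvd_card H
    rw [hKc, Nat.card_eq_fintype_card, ZMod.card] at h1
    exact h1
  obtain ⟨d, hd⟩ := hdvd
  have hhd : K.card * d = n := hd.symm
  have hdn : d ∣ n := ⟨K.card, by rw [mul_comm]; exact hd⟩
  have hd0 : NeZero d := ⟨fun h' => NeZero.ne n (by rw [← hhd, h', mul_zero])⟩
  have hker : ∀ x, x ∈ K ↔ red hdn x = 0 := by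
    have h1 : K ⊆ univ.filter fun x => red hdn x ∈ ({0} : Finset (ZMod d)) := by
      intro x hx
      rw [mem_filter, mem_singleton]
      exact ⟨mem_univ _, red_of_mem hdn hhd H hKc ((hKH x).1 hx)⟩
    have h2 := card_fiber (red hdn) (red_surj hdn) {0} K.card (by rw [ZMod.card, ZMod.card, hhd])
    rw [card_singleton, mul_one] at h2
    have h3 := Finset.eq_of_subset_of_card_le h1 h2.le
    intro x
    constructor
    · intro hx
      rw [h3, mem_filter, mem_singleton] at hx
      exact hx.2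
    · intro hx
      rw [h3, mem_filter, mem_singleton]
      exact ⟨mem_univ _, hx⟩
  set W : Finset (ZMod d) := S0.image (red hdn) with hW
  have hsum : K + S0 = univ.filter fun x => red hdn x ∈ W := by
    ext x
    rw [Finset.mem_add, mem_filter, hW, mem_image]
    constructor
    · rintro ⟨k, hk, s, hs, rfl⟩
      refine ⟨mem_univ _, s, hs, ?_⟩
      rw [map_add, (hker k).1 hk, zero_add]
    · rintro ⟨-, s, hs, h⟩
      refine ⟨x - s, (hker _).2 ?_, s, hs, sub_add_cancel x s⟩
      rw [map_sub, h, sub_self]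
  have hsumc : (K + S0).card = K.card * W.card := by
    rw [hsum]
    exact card_fiber (red hdn) (red_surj hdn) W K.card (by rw [ZMod.card, ZMod.card, hhd])
  have hW0 : (0 : ZMod d) ∈ W := by
    rw [hW, mem_image]
    exact ⟨0, h0S, map_zero _⟩
  have hWs : ∀ c ∈ W, -c ∈ W := by
    intro c hc
    rw [hW, mem_image] at hc ⊢
    obtain ⟨s, hs, rfl⟩ := hc
    exact ⟨-s, hsS s hs, map_neg _ _⟩
  have hWc := card_prs (card_zmod_odd (odd_of_dvd hn hdn)) W hW0 hWs
  set w := (prs W).card with hw
  have hKo : Odd K.card := odd_of_dvd hn ⟨d, hd⟩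
  have hbd : (K.card * (2 * w + 1) : ℤ) - K.card < t := by
    have h1 : bd S0 K = ((K + S0).card : ℤ) - K.card := rfl
    rw [hsumc, ← hWc] at h1
    push_cast at h1
    linarith
  have hbd2 : w * K.card ≤ (t - 1) / 2 := by
    have h1 : (K.card * (2 * w + 1) : ℤ) - K.card = 2 * (w * K.card : ℕ) := by
      push_cast
      ring
    rw [h1] at hbd
    omega
  have hK1 : K.card ≠ 1 := by
    intro h1
    have h2 : S0 ⊆ K + S0 := by
      intro s hs
      rw [Finset.mem_add]
      exact ⟨0, (hker 0).2 (map_zero _), s, hs, zero_add s⟩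
    have h3 := card_le_card h2
    rw [hS0c, hsumc, h1, ← hWc, one_mul] at h3
    rw [h1, mul_one] at hbd2
    omega
  obtain ⟨y, hy⟩ := hKo
  obtain ⟨x, hx⟩ : ∃ x, K.card = 2 * x + 3 := ⟨y - 1, by omega⟩
  have hwd : 2 * w + 1 < d := by
    rw [hWc]
    have h1 : W.card < Fintype.card (ZMod d) := by
      rw [Finset.card_lt_iff_ne_univ]
      intro h2
      apply hKadm.2
      rw [hsum, h2]
      ext x
      simp
    rwa [ZMod.card] at h1
  have hw1 : 1 ≤ w := by
    by_contra hcon
    have hw0 : W.card = 1 := by omega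
    rw [Finset.card_eq_one] at hw0
    obtain ⟨z, hz⟩ := hw0
    have hz0 : z = 0 := by
      rw [hz, mem_singleton] at hW0
      exact hW0.symm
    have h1 : d = 1 := by
      refine hG d hdn fun j hj => ?_
      rw [← red_eq_zero hdn]
      have h2 : red hdn j.1 ∈ W := by
        rw [hW, mem_image]
        exact ⟨j.1, mem_insert_of_mem (mem_un_self hj), rfl⟩
      rw [hz, hz0, mem_singleton] at h2
      exact h2
    omega
  refine ⟨x, hI, d, w, hdn, W, ?_, hW0, hWs, hWc.symm, hw1, hwd, ?_, ?_⟩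
  · rw [← hx]
    exact hhd
  · rw [← hx]
    exact hbd2
  · intro j hj
    rw [hW, mem_image]
    exact ⟨j.1, mem_insert_of_mem (mem_un_self hj), rfl⟩

end Pool.Agent.R546.EV
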