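import Mathlib
import Pool.Agent.TH669.KS.Num
import Pool.Agent.R546.EV.Conn

set_option autoImplicit false

/-!
# Signed number of generating sets of pairs (MP_257582_lc)
-/

namespace Pool.Agent.R546.EV

open Finset
open Pool.Agent.W332.Kd
open Pool.Agent.TH669.KP (sgn bit)
open Pool.Agent.TH669.KC (Cl cls cls_of_ne)
open Pool.Agent.TH669.KS (SS gn Gm Gm_top_ne)

section

variable {B : Type} [AddCommGroup B] [DecidableEq B] [Fintype B]

/-- pairs and classes -/
noncomputable def pc : Rp B ≃ Cl B :=
  Equiv.ofBijective (fun j => ⟨s(j.1, -j.1), j.1, ((mem_Rp _).1 j.2).1, rfl⟩) (by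
    constructor
    · intro i j h
      have h1 : s(i.1, -i.1) = s(j.1, -j.1) := congrArg Subtype.val h
      by_contra hij
      have hd := pr_disj i.2 j.2 (fun h => hij (Subtype.ext h))
      have h2 : i.1 ∈ pr i.1 := (mem_pr _ _).2 (Or.inl rfl)
      refine Finset.disjoint_left.1 hd h2 ((mem_pr _ _).2 ?_)
      rw [Sym2.eq_iff] at h1
      rcases h1 with h1 | h1
      · exact Or.inl h1.1
      · exact Or.inr h1.1
    · rintro ⟨e, z, hz, rfl⟩
      obtain ⟨j, hj⟩ := cover_pr z hz
      refine ⟨j, Subtype.ext ?_⟩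
      change s(j.1, -j.1) = s(z, -z)
      rw [Sym2.eq_iff]
      rw [mem_pr] at hj
      rcases hj with rfl | h
      · exact Or.inl ⟨rfl, rfl⟩
      · exact Or.inr ⟨by rw [h, neg_neg], h.symm⟩)

theorem pc_val (j : Rp B) : (pc j).1 = s(j.1, -j.1) := rfl

theorem cls_pc (j : Rp B) {z : B} (hz : z ≠ 0) : cls z = some (pc j) ↔ z ∈ pr j.1 := by
  rw [cls_of_ne hz, mem_pr, Option.some_inj, Subtype.ext_iff, pc_val]
  change s(z, -z) = _ ↔ _
  rw [Sym2.eq_iff]
  constructor
  · rintro (h | h)
    · exact Or.inl h.1
    · exact Or.inr h.1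
  · rintro (rfl | rfl)
    · exact Or.inl ⟨rfl, rfl⟩
    · exact Or.inr ⟨rfl, neg_neg _⟩

/-- the choice function of a set of pairs -/
noncomputable def chi (I : Finset (Rp B)) : Cl B → Bool := fun d => decide (pc.symm d ∈ I)

theorem SS_chi (I : Finset (Rp B)) : SS (chi I) = (un I : Set B) := by
  ext z
  constructor
  · rintro ⟨d, hd, hχ⟩
    have hz : z ≠ 0 := by
      rintro rfl
      rw [Pool.Agent.TH669.KC.cls_zero] at hd
      cases hd
    obtain ⟨j, rfl⟩ := pc.surjective d
    rw [cls_pc j hz] at hd
    have hj : j ∈ I := by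
      have : decide (pc.symm (pc j) ∈ I) = true := hχ
      rw [Equiv.symm_apply_apply] at this
      exact of_decide_eq_true this
    rw [Finset.mem_coe, un, mem_biUnion]
    exact ⟨j, hj, hd⟩
  · intro hz
    have hz0 : z ≠ 0 := fun h => (un_sy I).zero (h ▸ hz)
    rw [Finset.mem_coe, un, mem_biUnion] at hz
    obtain ⟨j, hj, hd⟩ := hz
    refine ⟨pc j, (cls_pc j hz0).2 hd, ?_⟩
    change decide (pc.symm (pc j) ∈ I) = true
    rw [Equiv.symm_apply_apply]
    exact decide_eq_true hj

theorem sgn_chi (I : Finset (Rp B)) : sgn (chi I) = (-1) ^ I.card := by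
  classical
  unfold sgn
  rw [← Equiv.prod_comp (pc (B := B))]
  have h1 : ∀ j : Rp B, (if chi I (pc j) = true then (-1 : ℤ) else 1) = if j ∈ I then -1 else 1 := by
    intro j
    have : chi I (pc j) = decide (j ∈ I) := by
      change decide (pc.symm (pc j) ∈ I) = _
      rw [Equiv.symm_apply_apply]
    rw [this]
    by_cases h : j ∈ I
    · rw [if_pos (decide_eq_true h), if_pos h]
    · rw [if_neg (by simpa using h), if_neg h]
  rw [Finset.prod_congr rfl fun j _ => h1 j, Finset.prod_ite, Finset.prod_const_one, mul_one,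
    Finset.prod_const]
  congr 2
  ext j
  simp

open Classical in
/-- The signed number of generating sets of pairs does not vanish. -/
theorem gen_sum_ne (hsq : ∀ x : B, Squarefree (addOrderOf x)) :
    ∑ I : Finset (Rp B), (-1 : ℤ) ^ I.card *
      (if AddSubgroup.closure (un I : Set B) = ⊤ then 1 else 0) ≠ 0 := by
  have h1 := Gm_top_ne hsq
  unfold Gm at h1
  intro h0
  apply h1
  rw [← h0]
  symm
  refine Fintype.sum_bijective chi ?_ _ _ ?_
  · constructor
    · intro I J h
      ext j
      have h2 := congrFun h (pc j)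
      have h3 : ∀ I : Finset (Rp B), chi I (pc j) = decide (j ∈ I) := by
        intro I
        change decide (pc.symm (pc j) ∈ I) = _
        rw [Equiv.symm_apply_apply]
      rw [h3, h3, decide_eq_decide] at h2
      exact h2
    · intro χ
      refine ⟨univ.filter fun j => χ (pc j) = true, ?_⟩
      funext d
      change decide (pc.symm d ∈ _) = _
      have h2 : (pc.symm d ∈ univ.filter fun j => χ (pc j) = true) ↔ χ d = true := by
        rw [mem_filter, Equiv.apply_symm_apply]
        simp
      cases hχ : χ d with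
      | true => exact decide_eq_true (h2.2 hχ)
      | false =>
        refine decide_eq_false fun h => ?_
        rw [h2, hχ] at h
        cases h
  · intro I
    rw [sgn_chi]
    unfold gn bit
    rw [SS_chi]

end

end Pool.Agent.R546.EV
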