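import Mathlib
import Pool.Agent.R546.EV.Bad

set_option autoImplicit false

/-!
# Evasiveness between k-connected Hamiltonian graphs and minimum degree k (MP_257582_lc)
-/

namespace Pool.Agent.R546.EV

open Finset
open Pool.Agent.W332.Kd
open Pool.Agent.W332.Kc (coneO relCone)
open Pool.Agent.H119R2.Kp (GP PV)
open Pool.Agent.TH669.KS (HasC)

theorem trl_conj {A ι : Type} [AddCommGroup A] (a : ι → A) (c : A) (i : ι) :
    (trl c)⁻¹ * trl (a i) * trl c ∈ Subgroup.closure (Set.range fun i => trl (a i)) := by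
  have : (trl c)⁻¹ * trl (a i) * trl c = trl (a i) := by
    rw [mul_assoc, ← trl_add, add_comm, trl_add, inv_mul_cancel_left]
  rw [this]
  exact Subgroup.subset_closure ⟨i, rfl⟩

theorem trl_trans {n : ℕ} [NeZero n] {ι : Type} (a : ι → ZMod n) (j : Rp (ZMod n))
    (u v u' v' : ZMod n) (h : v - u ∈ pr j.1) (h' : v' - u' ∈ pr j.1) :
    ∃ g ∈ Subgroup.closure (insert (trl (1 : ZMod n)) (Set.range fun i => trl (a i))),
      (g u = u' ∧ g v = v') ∨ (g u = v' ∧ g v = u') := by
  rw [mem_pr] at h h'
  have hcase : v' - u' = v - u ∨ v' - u' = -(v - u) := by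
    rcases h with h | h <;> rcases h' with h' | h' <;> rw [h, h']
    · exact Or.inl rfl
    · exact Or.inr rfl
    · exact Or.inr (neg_neg _).symm
    · exact Or.inl rfl
  rcases hcase with h1 | h1
  · refine ⟨trl (u' - u), gen_cyc _ _, Or.inl ⟨?_, ?_⟩⟩
    · change u + (u' - u) = u'
      abel
    · change v + (u' - u) = v'
      have : v' = (v' - u') + u' := by abel
      rw [this, h1]
      abel
  · refine ⟨trl (v' - u), gen_cyc _ _, Or.inr ⟨?_, ?_⟩⟩
    · change u + (v' - u) = v'
      abel
    · change v + (v' - u) = u'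
      have : v' = (v' - u') + u' := by abel
      rw [this, h1]
      abel

theorem hasC_map {V W : Type} {G : SimpleGraph V} {s : ℕ} (h : HasC G s) (e : V ≃ W) :
    HasC (G.map e.toEmbedding) s :=
  h.map e e.injective fun _ _ huv => (SimpleGraph.Iso.map e G).map_adj_iff.2 huv

/-- sum of the degrees -/
theorem map_sum {V : Type} [Fintype V] {n : ℕ} (G : SimpleGraph V) (e : V ≃ Fin n) :
    ∑ v, ((G.map e.toEmbedding).neighborSet v).ncard = ∑ x, (G.neighborSet x).ncard := by
  rw [← Equiv.sum_comp e]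
  exact Finset.sum_congr rfl fun x _ => map_deg G e x

open Classical in
/-- `n` odd -/
theorem no_GP_odd {n t : ℕ} (hn : Odd n) (ht : 3 ≤ t) (htn : t < n)
    {P : SimpleGraph (Fin n) → Prop} (hP : GP n (n.choose 2 - 1) P)
    (hlow : ∀ G : SimpleGraph (Fin n), VT G → KC t G → HasC G n → P G)
    (hup : ∀ G : SimpleGraph (Fin n), P G → G.Connected ∧
      t * n ≤ ∑ v, (G.neighborSet v).ncard) :
    False := by
  have : NeZero n := ⟨by omega⟩
  have : Fact (Nat.Prime 2) := ⟨Nat.prime_two⟩
  have key := relC (by omega) hP (A := ZMod n) (ZMod.card n) 2 (ι := Empty)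
    (fun i => trl ((fun i : Empty => i.elim) i)) (trl (1 : ZMod n)) (fun i => i.elim)
    (fun i => i.elim) (fun i => i.elim) (fun j : Rp (ZMod n) => pr j.1) part_pr
    (fun _ i => i.elim)
    (by
      intro j u v h
      change (v + 1) - (u + 1) ∈ _
      rwa [add_sub_add_right_eq_sub])
    (by
      intro j u v u' v' h h'
      exact trl_trans _ j u v u' v' h h')
  obtain ⟨s, hs⟩ := hn
  refine nonvan (u := (t - 1) / 2) ⟨s, hs⟩ (by omega) (by omega)
    (fun I => PV P (ZMod n) (cay (un I))) ?_ ?_ key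
  · rintro I ⟨e, he⟩
    obtain ⟨h1, h2⟩ := hup _ he
    have h3 : (cay (un I)).Connected := (SimpleGraph.Iso.map e (cay (un I))).connected_iff.2 h1
    refine ⟨gn_of_conn I h3, ?_⟩
    have h4 := h2
    rw [map_sum, Finset.sum_congr rfl fun x _ => cay_Reg (un_sy I) x, Finset.sum_const,
      Finset.card_univ, ZMod.card, smul_eq_mul, card_un (card_zmod_odd ⟨s, hs⟩), mul_comm t n] at h4
    have h5 := Nat.le_of_mul_le_mul_left h4 (by omega)
    omega
  · intro I hG hI hbad
    have hK : KC t (cay (un I)) := by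
      by_contra hcon
      obtain ⟨x, hx⟩ := exists_bad ⟨s, hs⟩ (by omega) htn I hG hI hcon
      exact hbad x hx
    have e : ZMod n ≃ Fin n := Fintype.equivFinOfCardEq (ZMod.card n)
    refine ⟨e, hlow _ ((cay_VT (un_sy I)).map e) (KC_iso (SimpleGraph.Iso.map e _) hK) ?_⟩
    exact hasC_map (ham_cay (by omega) I (hK.connected (by omega))) e

open Classical in
/-- the number of vertices is even -/
theorem no_GP_even {n t : ℕ} (hn : Odd n) (ht : 3 ≤ t) (htn : t < n)
    {P : SimpleGraph (Fin (n + 1)) → Prop} (hP : GP (n + 1) ((n + 1).choose 2 - 1) P)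
    (hlow : ∀ G : SimpleGraph (Fin (n + 1)), KC (t + 1) G → HasC G (n + 1) → P G)
    (hup : ∀ G : SimpleGraph (Fin (n + 1)), P G → KC 2 G ∧
      (t + 1) * (n + 1) ≤ ∑ v, (G.neighborSet v).ncard) :
    False := by
  have : NeZero n := ⟨by omega⟩
  have : Fact (Nat.Prime 2) := ⟨Nat.prime_two⟩
  have hisol : ∀ G : SimpleGraph (Fin (n + 1)), (∃ v, ∀ w, ¬ G.Adj v w) → ¬ P G := by
    rintro G ⟨v, hv⟩ hG
    have h1 := (hup G hG).1.connected (by norm_num)
    have : Nontrivial (Fin (n + 1)) := Fin.nontrivial_iff_two_le.2 (by omega)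
    obtain ⟨w, hw⟩ := exists_ne v
    obtain ⟨p⟩ := h1.preconnected v w
    cases p with
    | nil => exact hw rfl
    | cons h _ => exact hv _ h
  have key := relCone (by omega) hP hisol (A := ZMod n) (ZMod.card n) 2 (ι := Empty)
    (fun i => trl ((fun i : Empty => i.elim) i)) (trl (1 : ZMod n)) (fun i => i.elim)
    (fun i => i.elim) (fun i => i.elim)
    (by
      intro x y
      refine ⟨trl (y - x), gen_cyc _ _, ?_⟩
      change x + (y - x) = y
      abel)
    (fun j : Rp (ZMod n) => pr j.1) part_pr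
    (fun _ i => i.elim)
    (by
      intro j u v h
      change (v + 1) - (u + 1) ∈ _
      rwa [add_sub_add_right_eq_sub])
    (by
      intro j u v u' v' h h'
      exact trl_trans _ j u v u' v' h h')
  obtain ⟨s, hs⟩ := hn
  refine nonvan (u := (t - 1) / 2) ⟨s, hs⟩ (by omega) (by omega)
    (fun I => PV P (Option (ZMod n)) (coneO (cay (un I)))) ?_ ?_ key
  · rintro I ⟨e, he⟩
    obtain ⟨h1, h2⟩ := hup _ he
    have h3 : (cay (un I)).Connected :=
      conn_of_cone (KC_iso (SimpleGraph.Iso.map e (coneO (cay (un I)))).symm h1)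
    refine ⟨gn_of_conn I h3, ?_⟩
    have h4 := h2
    have h5 : ((coneO (cay (un I))).neighborSet none).ncard ≤ n := by
      have h6 : (coneO (cay (un I))).neighborSet none ⊆ {x | x ≠ none} :=
        fun x hx => hx.1.symm
      refine (Set.ncard_le_ncard h6).trans ?_
      have h7 : {x : Option (ZMod n) | x ≠ none} = Set.range some := by
        ext x
        cases x <;> simp
      rw [h7, ← Set.image_univ, Set.ncard_image_of_injective _ (Option.some_injective _),
        Set.ncard_univ, Nat.card_eq_fintype_card, ZMod.card]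
    rw [map_sum, Fintype.sum_option, Finset.sum_congr rfl fun x _ => cone_deg_some _ x,
      Finset.sum_congr rfl fun x _ => congrArg (· + 1) (cay_Reg (un_sy I) x), Finset.sum_const,
      Finset.card_univ, ZMod.card, smul_eq_mul, card_un (card_zmod_odd ⟨s, hs⟩)] at h4
    by_contra hcon
    have h8 : 2 * I.card + 1 ≤ t := by omega
    have h9 : n * (2 * I.card + 1) ≤ n * t := Nat.mul_le_mul_left n h8
    have h10 : (t + 1) * (n + 1) = n * t + n + t + 1 := by ring
    omega
  · intro I hG hI hbad
    have hK : KC t (cay (un I)) := by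
      by_contra hcon
      obtain ⟨x, hx⟩ := exists_bad ⟨s, hs⟩ (by omega) htn I hG hI hcon
      exact hbad x hx
    have e : Option (ZMod n) ≃ Fin (n + 1) :=
      Fintype.equivFinOfCardEq (by rw [Fintype.card_option, ZMod.card])
    refine ⟨e, hlow _ (KC_iso (SimpleGraph.Iso.map e _) (KC_cone hK)) ?_⟩
    exact hasC_map (ham_cone (by omega) I (hK.connected (by omega))) e

end Pool.Agent.R546.EV
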