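import Mathlib
import Pool.Agent.R546.EV.GenSum
import Pool.Agent.R546.EV.Main

set_option autoImplicit false

/-!
# Between Hamiltonian and 2-connected, cones over abelian Cayley graphs (MP_257582_lc)
-/

namespace Pool.Agent.R546.EV

open Finset
open Pool.Agent.W332.Kd
open Pool.Agent.W332.Kc (coneO relCone)
open Pool.Agent.H119R2.Kp (GP PV)
open Pool.Agent.TH669.KS (HasC hasC_of_list ham_cycle)

section

variable {A : Type} [AddCommGroup A] [Fintype A] [DecidableEq A]

theorem closure_of_connA (I : Finset (Rp A))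
    (h : (cay (un I)).Connected) : AddSubgroup.closure (un I : Set A) = ⊤ := by
  have h1 : ∀ x y : A, (cay (un I)).Reachable x y →
      y - x ∈ AddSubgroup.closure (un I : Set A) := by
    rintro x y ⟨w⟩
    induction w with
    | nil => rw [sub_self]; exact zero_mem _
    | @cons u v w' hadj _ ih =>
      rw [cay_adj (un_sy I)] at hadj
      have h2 : w' - u = (w' - v) + (v - u) := by abel
      rw [h2]
      exact add_mem ih (AddSubgroup.subset_closure hadj)
  rw [eq_top_iff]
  intro x _
  have := h1 0 x (h.preconnected 0 x)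
  rwa [sub_zero] at this

/-- `G` contains a wheel with `n` spokes. -/
def HasW (n : ℕ) {V : Type} (G : SimpleGraph V) : Prop :=
  ∃ f : Option (Fin n) → V, Function.Injective f ∧
    ∀ u v, (coneO (SimpleGraph.cycleGraph n)).Adj u v → G.Adj (f u) (f v)

theorem ham_coneA (hA : 3 ≤ Fintype.card A) (I : Finset (Rp A))
    (h : AddSubgroup.closure (un I : Set A) = ⊤) :
    HasW (Fintype.card A) (coneO (cay (un I))) := by
  obtain ⟨L, α, β, hC, hlen⟩ := ham_cycle (un I : Set A) h
    (by rw [Nat.card_eq_fintype_card]; exact hA)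
  have hst : ∀ x y : A, Pool.Agent.TH669.KP.Stp (un I : Set A) x y →
      (cay (un I)).Adj x y := by
    intro x y hxy
    rw [cay_adj (un_sy I)]
    rcases hxy with h1 | h1
    · exact h1
    · have := (un_sy I).neg _ h1
      rwa [neg_sub] at this
  rw [Nat.card_eq_fintype_card] at hlen
  obtain ⟨t, ht, ⟨c⟩⟩ := hasC_of_list (cay (un I)) (Fintype.card A) L hlen.ge hC.nd
    (hC.ch.imp hst) hC.hd hC.lt (hst _ _ hC.cl)
  have ht' : t = Fintype.card A := by
    have := Fintype.card_le_of_injective c c.injective
    rw [Fintype.card_fin] at this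
    omega
  subst ht'
  refine ⟨Option.map c, Option.map_injective c.injective, ?_⟩
  rintro u v ⟨huv, hadj⟩
  refine ⟨fun h' => huv (Option.map_injective c.injective h'), ?_⟩
  intro x y hx hy
  cases u with
  | none => cases hx
  | some i =>
    cases v with
    | none => cases hy
    | some j =>
      cases hx
      cases hy
      exact c.toHom.map_adj (hadj i j rfl rfl)

theorem trl_transA {ι : Type} (a : ι → A) (c : A)
    (hgen : ∀ x : A, trl x ∈ Subgroup.closure (insert (trl c) (Set.range fun i => trl (a i))))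
    (j : Rp A) (u v u' v' : A) (h : v - u ∈ pr j.1) (h' : v' - u' ∈ pr j.1) :
    ∃ g ∈ Subgroup.closure (insert (trl c) (Set.range fun i => trl (a i))),
      (g u = u' ∧ g v = v') ∨ (g u = v' ∧ g v = u') := by
  rw [mem_pr] at h h'
  have hcase : v' - u' = v - u ∨ v' - u' = -(v - u) := by
    rcases h with h | h <;> rcases h' with h' | h' <;> rw [h, h']
    · exact Or.inl rfl
    · exact Or.inr rfl
    · exact Or.inr (neg_neg _).symm
    · exact Or.inl rfl
  rcases hcase with h1 | h1
  · refine ⟨trl (u' - u), hgen _, Or.inl ⟨?_, ?_⟩⟩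
    · change u + (u' - u) = u'
      abel
    · change v + (u' - u) = v'
      have : v' = (v' - u') + u' := by abel
      rw [this, h1]
      abel
  · refine ⟨trl (v' - u), hgen _, Or.inr ⟨?_, ?_⟩⟩
    · change u + (v' - u) = v'
      abel
    · change v + (v' - u) = u'
      have : v' = (v' - u') + u' := by abel
      rw [this, h1]
      abel

theorem trl_closure {ι : Type} (a : ι → A) (c : A) {x : A}
    (hx : x ∈ AddSubgroup.closure (insert c (Set.range a))) :
    trl x ∈ Subgroup.closure (insert (trl c) (Set.range fun i => trl (a i))) := by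
  induction hx using AddSubgroup.closure_induction with
  | mem y hy =>
    apply Subgroup.subset_closure
    rcases hy with rfl | ⟨i, rfl⟩
    · exact Set.mem_insert _ _
    · exact Set.mem_insert_of_mem _ ⟨i, rfl⟩
  | zero =>
    rw [trl_zero]
    exact one_mem _
  | add y z _ _ hy hz =>
    rw [trl_add]
    exact mul_mem hy hz
  | neg y _ hy =>
    have h1 : trl (-y) * trl y = 1 := by
      rw [← trl_add, neg_add_cancel, trl_zero]
    rw [eq_inv_of_mul_eq_one_left h1]
    exact inv_mem hy

open Classical in
theorem no_GP_ham {n : ℕ} (hn : 3 ≤ n) (hA : Fintype.card A = n)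
    (hsq : ∀ x : A, Squarefree (addOrderOf x)) (p : ℕ) [Fact p.Prime] {ι : Type} [Fintype ι]
    (a : ι → A) (c : A) (hpa : ∀ i, p • a i = 0)
    (hgen : ∀ x : A, x ∈ AddSubgroup.closure (insert c (Set.range a)))
    {P : SimpleGraph (Fin (n + 1)) → Prop} (hP : GP (n + 1) ((n + 1).choose 2 - 1) P)
    (hlow : ∀ G : SimpleGraph (Fin (n + 1)), HasW n G → P G)
    (hup : ∀ G : SimpleGraph (Fin (n + 1)), P G → KC 2 G) : False := by
  have hgen' : ∀ x : A, trl x ∈ Subgroup.closure (insert (trl c) (Set.range fun i => trl (a i))) :=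
    fun x => trl_closure a c (hgen x)
  have hisol : ∀ G : SimpleGraph (Fin (n + 1)), (∃ v, ∀ w, ¬ G.Adj v w) → ¬ P G := by
    rintro G ⟨v, hv⟩ hG
    have h1 := (hup G hG).connected (by norm_num)
    have : Nontrivial (Fin (n + 1)) := Fin.nontrivial_iff_two_le.2 (by omega)
    obtain ⟨w, hw⟩ := exists_ne v
    obtain ⟨p⟩ := h1.preconnected v w
    cases p with
    | nil => exact hw rfl
    | cons h _ => exact hv _ h
  have key := relCone (by omega) hP hisol (A := A) hA p
    (fun i => trl (a i)) (trl c)
    (by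
      intro i j
      rw [← trl_add, ← trl_add, add_comm])
    (by
      intro i
      rw [← trl_nsmul, hpa, trl_zero])
    (fun i => trl_conj a c i)
    (by
      intro x y
      refine ⟨trl (y - x), hgen' _, ?_⟩
      change x + (y - x) = y
      abel)
    (fun j : Rp A => pr j.1) part_pr
    (by
      intro j i u v h
      change (v + a i) - (u + a i) ∈ _
      rwa [add_sub_add_right_eq_sub])
    (by
      intro j u v h
      change (v + c) - (u + c) ∈ _
      rwa [add_sub_add_right_eq_sub])
    (trl_transA a c hgen')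
  refine gen_sum_ne hsq (Eq.trans (Finset.sum_congr rfl fun I _ => ?_) key)
  have h1 : AddSubgroup.closure (un I : Set A) = ⊤ ↔
      PV P (Option A) (coneO (cay (I.biUnion fun j : Rp A => pr j.1))) := by
    constructor
    · intro h
      have e : Option A ≃ Fin (n + 1) :=
        Fintype.equivFinOfCardEq (by rw [Fintype.card_option, hA])
      refine ⟨e, hlow _ ?_⟩
      have h2 := ham_coneA (by omega) I h
      rw [hA] at h2
      obtain ⟨f, hf, hf'⟩ := h2
      exact ⟨fun x => e (f x), e.injective.comp hf, fun u v huv =>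
        (SimpleGraph.Iso.map e _).map_adj_iff.2 (hf' u v huv)⟩
    · rintro ⟨e, he⟩
      have h2 := hup _ he
      exact closure_of_connA I
        (conn_of_cone (KC_iso (SimpleGraph.Iso.map e (coneO (cay (un I)))).symm h2))
  by_cases h : AddSubgroup.closure (un I : Set A) = ⊤
  · rw [if_pos h, if_pos (h1.1 h)]
  · rw [if_neg h, if_neg (fun h' => h (h1.2 h'))]

end

/-- `n = p ^ a m`, `m` squarefree -/
theorem no_GP_ham' {n : ℕ} (hn : 3 ≤ n) (p a m : ℕ) (hp : p.Prime) (hnp : n = p ^ a * m)
    (hm : Squarefree m) (hpm : ¬ p ∣ m)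
    {P : SimpleGraph (Fin (n + 1)) → Prop} (hP : GP (n + 1) ((n + 1).choose 2 - 1) P)
    (hlow : ∀ G : SimpleGraph (Fin (n + 1)), HasW n G → P G)
    (hup : ∀ G : SimpleGraph (Fin (n + 1)), P G → KC 2 G) : False := by
  classical
  have : Fact p.Prime := ⟨hp⟩
  have : NeZero m := ⟨hm.ne_zero⟩
  have hcard : Fintype.card ((Fin a → ZMod p) × ZMod m) = n := by
    rw [Fintype.card_prod, Fintype.card_fun, ZMod.card, ZMod.card, Fintype.card_fin, hnp]
  refine no_GP_ham (A := (Fin a → ZMod p) × ZMod m) hn hcard ?_ p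
    (ι := Fin a) (fun i => (Pi.single i 1, 0)) (0, 1) ?_ ?_ hP hlow hup
  · intro x
    have hsq : Squarefree (p * m) :=
      (Nat.squarefree_mul ((Nat.Prime.coprime_iff_not_dvd hp).2 hpm)).2 ⟨hp.squarefree, hm⟩
    refine hsq.squarefree_of_dvd ?_
    rw [addOrderOf_dvd_iff_nsmul_eq_zero]
    refine Prod.ext ?_ ?_
    · funext l
      change (p * m) • x.1 l = 0
      rw [nsmul_eq_mul, Nat.cast_mul, CharP.cast_eq_zero, zero_mul, zero_mul]
    · change (p * m) • x.2 = 0
      rw [nsmul_eq_mul, Nat.cast_mul, CharP.cast_eq_zero (ZMod m) m, mul_zero, zero_mul]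
  · intro i
    rw [Prod.smul_mk, smul_zero]
    refine Prod.ext ?_ rfl
    funext l
    change p • (Pi.single i (1 : ZMod p) : Fin a → ZMod p) l = 0
    rw [nsmul_eq_mul, CharP.cast_eq_zero, zero_mul]
  · intro t
    have h1 : t = t.2.val • ((0 : Fin a → ZMod p), (1 : ZMod m)) +
        ∑ i : Fin a, (t.1 i).val • (Pi.single i (1 : ZMod p), (0 : ZMod m)) := by
      refine Prod.ext ?_ ?_
      · rw [Prod.fst_add, Prod.fst_sum]
        simp only [Prod.smul_mk, smul_zero, zero_add]
        funext l
        rw [Finset.sum_apply, Finset.sum_eq_single l]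
        · simp
        · intro i _ hi
          simp [Ne.symm hi]
        · intro h
          exact absurd (Finset.mem_univ _) h
      · rw [Prod.snd_add, Prod.snd_sum]
        simp only [Prod.smul_mk, smul_zero, Finset.sum_const_zero, add_zero,
          nsmul_eq_mul, mul_one]
        exact (ZMod.natCast_zmod_val _).symm
    rw [h1]
    refine AddSubgroup.add_mem _ (AddSubgroup.nsmul_mem _ (AddSubgroup.subset_closure
      (Set.mem_insert _ _)) _) (AddSubgroup.sum_mem _ fun i0 _ => AddSubgroup.nsmul_mem _
      (AddSubgroup.subset_closure (Set.mem_insert_of_mem _ (Set.mem_range_self _))) _)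

end Pool.Agent.R546.EV
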